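import Pool.Agent.Helper23U.NearU

/-!
# The chordal distance
-/

set_option autoImplicit false
set_option linter.unusedSectionVars false

open Set Filter Topology Metric
open scoped OnePoint

noncomputable section

namespace Pool.Agent.Helper23U

open Pool.Agent.H790R3.RB (CV hF ND sp pr hc pol HypTop Sink Attd PQ SP cr)
open Pool.Agent.W440.RE.GENM
open Pool.Agent.Helper23S
open Pool.Agent.Helper23T

/-- the chordal distance on the sphere (of diameter one) -/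
def chordal (z w : OnePoint ℂ) : ℝ :=
  match z, w with
  | none, none => 0
  | none, some w => 1 / Real.sqrt (1 + ‖w‖ ^ 2)
  | some z, none => 1 / Real.sqrt (1 + ‖z‖ ^ 2)
  | some z, some w => ‖z - w‖ / (Real.sqrt (1 + ‖z‖ ^ 2) * Real.sqrt (1 + ‖w‖ ^ 2))

/-- the norm of a vector -/
def Nn (p : ℂ × ℂ) : ℝ := Real.sqrt (‖p.1‖ ^ 2 + ‖p.2‖ ^ 2)

theorem Nn_pos {p : ℂ × ℂ} (hp : p ≠ 0) : 0 < Nn p := by
  apply Real.sqrt_pos.2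
  by_cases h : p.1 = 0
  · have h2 : p.2 ≠ 0 := fun h2 => hp (Prod.ext h h2)
    have := norm_pos_iff.2 h2
    positivity
  · have := norm_pos_iff.2 h
    positivity

theorem sqrt_quot {p : ℂ × ℂ} (h : p.2 ≠ 0) : Real.sqrt (1 + ‖p.1 / p.2‖ ^ 2) = Nn p / ‖p.2‖ := by
  have h2 : 0 < ‖p.2‖ := norm_pos_iff.2 h
  have e : 1 + ‖p.1 / p.2‖ ^ 2 = (‖p.1‖ ^ 2 + ‖p.2‖ ^ 2) / ‖p.2‖ ^ 2 := by
    rw [norm_div]
    field_simp
    ring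
  rw [e, Real.sqrt_div (by positivity), Real.sqrt_sq h2.le]
  rfl

theorem chordal_pr {p q : ℂ × ℂ} (hp : p ≠ 0) (hq : q ≠ 0) :
    chordal (pr p) (pr q) = ‖cr p q‖ / (Nn p * Nn q) := by
  have hNp := Nn_pos hp
  have hNq := Nn_pos hq
  by_cases h1 : p.2 = 0
  · by_cases h2 : q.2 = 0
    · rw [Pool.Agent.H790R3.RB.SP.pr_zero h1, Pool.Agent.H790R3.RB.SP.pr_zero h2]
      have e : cr p q = 0 := by unfold cr; rw [h1, h2]; ring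
      rw [e, norm_zero, zero_div]
      rfl
    · rw [Pool.Agent.H790R3.RB.SP.pr_zero h1, Pool.Agent.H790R3.RB.SP.pr_ne h2]
      have e0 : chordal ∞ ((q.1 / q.2 : ℂ) : OnePoint ℂ) = 1 / Real.sqrt (1 + ‖q.1 / q.2‖ ^ 2) := rfl
      rw [e0, sqrt_quot h2]
      have h3 : p.1 ≠ 0 := fun h3 => hp (Prod.ext h3 h1)
      have h4 : 0 < ‖p.1‖ := norm_pos_iff.2 h3
      have h5 : 0 < ‖q.2‖ := norm_pos_iff.2 h2
      have e1 : cr p q = p.1 * q.2 := by unfold cr; rw [h1]; ring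
      have e2 : Nn p = ‖p.1‖ := by
        unfold Nn
        rw [h1, norm_zero]
        simp
      rw [e1, e2, norm_mul]
      field_simp
  · by_cases h2 : q.2 = 0
    · rw [Pool.Agent.H790R3.RB.SP.pr_zero h2, Pool.Agent.H790R3.RB.SP.pr_ne h1]
      have e0 : chordal ((p.1 / p.2 : ℂ) : OnePoint ℂ) ∞ = 1 / Real.sqrt (1 + ‖p.1 / p.2‖ ^ 2) := rfl
      rw [e0, sqrt_quot h1]
      have h3 : q.1 ≠ 0 := fun h3 => hq (Prod.ext h3 h2)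
      have h4 : 0 < ‖q.1‖ := norm_pos_iff.2 h3
      have h5 : 0 < ‖p.2‖ := norm_pos_iff.2 h1
      have e1 : cr p q = -(p.2 * q.1) := by unfold cr; rw [h2]; ring
      have e2 : Nn q = ‖q.1‖ := by
        unfold Nn
        rw [h2, norm_zero]
        simp
      rw [e1, e2, norm_neg, norm_mul]
      field_simp
    · rw [Pool.Agent.H790R3.RB.SP.pr_ne h1, Pool.Agent.H790R3.RB.SP.pr_ne h2]
      have e0 : chordal ((p.1 / p.2 : ℂ) : OnePoint ℂ) ((q.1 / q.2 : ℂ) : OnePoint ℂ) =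
          ‖p.1 / p.2 - q.1 / q.2‖ / (Real.sqrt (1 + ‖p.1 / p.2‖ ^ 2) *
            Real.sqrt (1 + ‖q.1 / q.2‖ ^ 2)) := rfl
      rw [e0, sqrt_quot h1, sqrt_quot h2]
      have h4 : 0 < ‖p.2‖ := norm_pos_iff.2 h1
      have h5 : 0 < ‖q.2‖ := norm_pos_iff.2 h2
      have e1 : p.1 / p.2 - q.1 / q.2 = cr p q / (p.2 * q.2) := by
        unfold cr
        field_simp
      rw [e1, norm_div, norm_mul]
      field_simp

theorem Nn_mm (w : ℂ) (p : ℂ × ℂ) : Nn (mm w p) ≤ Real.sqrt (2 + 2 * ‖w‖ ^ 2) * Nn p := by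
  unfold Nn
  rw [← Real.sqrt_mul (by positivity)]
  apply Real.sqrt_le_sqrt
  show ‖p.2‖ ^ 2 + ‖p.1 - w * p.2‖ ^ 2 ≤ _
  have h1 : ‖p.1 - w * p.2‖ ≤ ‖p.1‖ + ‖w‖ * ‖p.2‖ := by
    refine (norm_sub_le _ _).trans ?_
    rw [norm_mul]
  have h2 : ‖p.1 - w * p.2‖ ^ 2 ≤ (‖p.1‖ + ‖w‖ * ‖p.2‖) ^ 2 :=
    pow_le_pow_left₀ (norm_nonneg _) h1 2
  nlinarith [sq_nonneg (‖p.1‖ - ‖w‖ * ‖p.2‖), sq_nonneg (‖w‖ * ‖p.1‖), sq_nonneg ‖p.2‖,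
    sq_nonneg ‖p.1‖, mul_nonneg (norm_nonneg w) (norm_nonneg p.2)]

theorem Nn_ad (w : ℂ) (p : ℂ × ℂ) : Nn p ≤ Real.sqrt (2 + 2 * ‖w‖ ^ 2) * Nn (ad w p) := by
  have h1 := Nn_mm w (ad w p)
  rw [mm_ad] at h1
  have h2 : Nn ((-1 : ℂ) • p) = Nn p := by
    unfold Nn
    simp
  rwa [h2] at h1

/-- Moebius maps are bi-Lipschitz -/
theorem chordal_mob {w : ℂ} {h : OnePoint ℂ ≃ₜ OnePoint ℂ}
    (hh : ∀ p : ℂ × ℂ, p ≠ 0 → h (pr p) = pr (mm w p)) (z z' : OnePoint ℂ) :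
    chordal (h.symm z) (h.symm z') ≤ (2 + 2 * ‖w‖ ^ 2) * chordal z z' := by
  have hsymm : ∀ q : ℂ × ℂ, q ≠ 0 → h.symm (pr q) = pr (ad w q) := by
    intro q hq
    have h1 : ad w q ≠ 0 := fun h0 => hq (ad_zero h0)
    rw [Homeomorph.symm_apply_eq, hh _ h1, mm_ad]
    refine (Pool.Agent.H790R3.RB.SP.pr_eq_iff hq (smul_ne_zero (by norm_num) hq)).2 ?_
    unfold cr
    simp
    ring
  obtain ⟨e1, e2⟩ := Pool.Agent.H790R3.RB.SP.pr_hc z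
  obtain ⟨e3, e4⟩ := Pool.Agent.H790R3.RB.SP.pr_hc z'
  have h1 : ad w (hc z) ≠ 0 := fun h0 => e2 (ad_zero h0)
  have h2 : ad w (hc z') ≠ 0 := fun h0 => e4 (ad_zero h0)
  rw [← e1, ← e3, hsymm _ e2, hsymm _ e4, chordal_pr h1 h2, chordal_pr e2 e4, cr_ad, norm_neg]
  have n1 := Nn_pos e2
  have n2 := Nn_pos e4
  have n3 := Nn_pos h1
  have n4 := Nn_pos h2
  have k1 := Nn_ad w (hc z)
  have k2 := Nn_ad w (hc z')
  set s := Real.sqrt (2 + 2 * ‖w‖ ^ 2) with hs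
  have hs2 : s * s = 2 + 2 * ‖w‖ ^ 2 := Real.mul_self_sqrt (by positivity)
  have hs0 : 0 ≤ s := Real.sqrt_nonneg _
  rw [← mul_div_assoc, div_le_div_iff₀ (by positivity) (by positivity), ← hs2]
  have k3 : Nn (hc z) * Nn (hc z') ≤ (s * Nn (ad w (hc z))) * (s * Nn (ad w (hc z'))) :=
    mul_le_mul k1 k2 n2.le (by positivity)
  calc ‖cr (hc z) (hc z')‖ * (Nn (hc z) * Nn (hc z'))
      ≤ ‖cr (hc z) (hc z')‖ * ((s * Nn (ad w (hc z))) * (s * Nn (ad w (hc z')))) :=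
        mul_le_mul_of_nonneg_left k3 (norm_nonneg _)
    _ = _ := by ring

/-- the chordal distance for homeomorphisms of the plane -/
theorem chordal_plane {Φ : ℂ ≃ₜ ℂ} {ρ κ ε M : ℝ} (hκ0 : 0 ≤ κ) (hε0 : 0 ≤ ε)
    (hM : 2 * ρ ≤ M) (h1 : ∀ z, ‖z‖ ≤ M → ‖Φ z - z‖ ≤ ε)
    (h2 : ∀ z, 2 * ρ ≤ ‖z‖ → ‖Φ z - z‖ ≤ 6 * κ * ‖z‖) (z : OnePoint ℂ) :
    chordal z (Φ.onePointCongr z) ≤ ε + 6 * κ := by
  induction z using OnePoint.rec with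
  | infty =>
    show (0 : ℝ) ≤ _
    positivity
  | coe z =>
    show ‖z - Φ z‖ / (Real.sqrt (1 + ‖z‖ ^ 2) * Real.sqrt (1 + ‖Φ z‖ ^ 2)) ≤ _
    rw [norm_sub_rev]
    have s1 : 1 ≤ Real.sqrt (1 + ‖z‖ ^ 2) := by
      rw [Real.one_le_sqrt]
      nlinarith [sq_nonneg ‖z‖]
    have s2 : 1 ≤ Real.sqrt (1 + ‖Φ z‖ ^ 2) := by
      rw [Real.one_le_sqrt]
      nlinarith [sq_nonneg ‖Φ z‖]
    have s3 : ‖z‖ ≤ Real.sqrt (1 + ‖z‖ ^ 2) := Real.le_sqrt_of_sq_le (by linarith)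
    rw [div_le_iff₀ (by positivity)]
    have s4 : 1 ≤ Real.sqrt (1 + ‖z‖ ^ 2) * Real.sqrt (1 + ‖Φ z‖ ^ 2) := by nlinarith
    have s5 : ‖z‖ ≤ Real.sqrt (1 + ‖z‖ ^ 2) * Real.sqrt (1 + ‖Φ z‖ ^ 2) := by
      nlinarith [norm_nonneg z]
    rcases le_total ‖z‖ M with h | h
    · refine (h1 z h).trans ?_
      nlinarith
    · refine (h2 z (hM.trans h)).trans ?_
      have : 6 * κ * ‖z‖ ≤ 6 * κ * (Real.sqrt (1 + ‖z‖ ^ 2) * Real.sqrt (1 + ‖Φ z‖ ^ 2)) :=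
        mul_le_mul_of_nonneg_left s5 (by positivity)
      have h3 : 0 ≤ ε * (Real.sqrt (1 + ‖z‖ ^ 2) * Real.sqrt (1 + ‖Φ z‖ ^ 2)) := by positivity
      linarith

end Pool.Agent.Helper23U
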