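import Pool.Agent.Helper23U.StepU

/-!
# Estimates of the coefficients
-/

set_option autoImplicit false
set_option linter.unusedSectionVars false

open Set Filter Topology Metric
open scoped OnePoint

noncomputable section

namespace Pool.Agent.Helper23U

open Pool.Agent.H790R3.RB (CV hF ND sp pr hc pol HypTop Sink Attd PQ SP)
open Pool.Agent.Helper23S
open Pool.Agent.Helper23T

variable {d : ℕ}

/-- difference of products -/
theorem prod_sub {ι : Type} (s : Finset ι) (a b : ι → ℂ) {A ε : ℝ} (hA : 1 ≤ A) (hε : 0 ≤ ε)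
    (ha : ∀ i ∈ s, ‖a i‖ ≤ A) (hb : ∀ i ∈ s, ‖b i‖ ≤ A) (hab : ∀ i ∈ s, ‖a i - b i‖ ≤ ε) :
    ‖∏ i ∈ s, a i‖ ≤ A ^ s.card ∧ ‖∏ i ∈ s, b i‖ ≤ A ^ s.card ∧
      ‖∏ i ∈ s, a i - ∏ i ∈ s, b i‖ ≤ s.card * A ^ s.card * ε := by
  classical
  induction s using Finset.induction_on with
  | empty => simp
  | insert j s hj ih =>
    obtain ⟨h1, h2, h3⟩ := ih (fun i hi => ha i (Finset.mem_insert_of_mem hi))
      (fun i hi => hb i (Finset.mem_insert_of_mem hi))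
      (fun i hi => hab i (Finset.mem_insert_of_mem hi))
    have e1 := ha j (Finset.mem_insert_self j s)
    have e2 := hb j (Finset.mem_insert_self j s)
    have e3 := hab j (Finset.mem_insert_self j s)
    rw [Finset.prod_insert hj, Finset.prod_insert hj, Finset.card_insert_of_notMem hj]
    have hA0 : 0 < A := by linarith
    have hAp : 0 < A ^ s.card := by positivity
    refine ⟨?_, ?_, ?_⟩
    · rw [norm_mul, pow_succ, mul_comm (A ^ s.card)]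
      exact mul_le_mul e1 h1 (norm_nonneg _) hA0.le
    · rw [norm_mul, pow_succ, mul_comm (A ^ s.card)]
      exact mul_le_mul e2 h2 (norm_nonneg _) hA0.le
    · have e4 : a j * ∏ i ∈ s, a i - b j * ∏ i ∈ s, b i =
          (a j - b j) * ∏ i ∈ s, a i + b j * (∏ i ∈ s, a i - ∏ i ∈ s, b i) := by ring
      rw [e4]
      refine (norm_add_le _ _).trans ?_
      rw [norm_mul, norm_mul]
      have h4 : ‖a j - b j‖ * ‖∏ i ∈ s, a i‖ ≤ ε * A ^ s.card :=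
        mul_le_mul e3 h1 (norm_nonneg _) hε
      have h5 : ‖b j‖ * ‖∏ i ∈ s, a i - ∏ i ∈ s, b i‖ ≤ A * (s.card * A ^ s.card * ε) :=
        mul_le_mul e2 h3 (norm_nonneg _) hA0.le
      have h6 : ε * A ^ s.card ≤ A * (A ^ s.card * ε) := by
        have : 0 ≤ A ^ s.card * ε := by positivity
        nlinarith
      push_cast
      rw [pow_succ]
      calc _ ≤ A * (A ^ s.card * ε) + A * (s.card * A ^ s.card * ε) := by linarith
        _ = _ := by ring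

/-- coefficients and the maximum on a circle -/
theorem coeff_le_circle (q : Polynomial ℂ) {R ε : ℝ} (hR : 1 ≤ R)
    (h : ∀ w : ℂ, ‖w‖ = R → ‖q.eval w‖ ≤ ε) (i : ℕ) : ‖q.coeff i‖ ≤ ε := by
  refine coeff_le q (fun w hw => ?_) i
  have hR0 : 0 < R := by linarith
  refine Complex.norm_le_of_forall_mem_frontier_norm_le (U := ball (0 : ℂ) R) isBounded_ball
    (f := fun w => q.eval w) q.differentiable.diffContOnCl (fun z hz => h z ?_) ?_
  · rw [frontier_ball _ hR0.ne'] at hz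
    exact mem_sphere_zero_iff_norm.1 hz
  · rw [closure_ball _ hR0.ne', mem_closedBall_zero_iff, hw]
    exact hR

/-- the estimate of the coefficients -/
theorem coefU {x x' : CV d} {Z : Finset ℂ} {lc : ℂ} (hg : Gen x Z lc) {ρ : ℝ} (hρ1 : 1 ≤ ρ)
    (hpf : ∀ p ∈ Z, ‖p‖ < ρ) {U0 : Set (OnePoint ℂ)}
    (hfar : ∀ z : ℂ, ρ ≤ ‖z‖ → (z : OnePoint ℂ) ∈ U0) {κ ε M Bf Lf Lc : ℝ} (hκ0 : 0 ≤ κ)
    (hκ : κ ≤ 1 / 40) (hε0 : 0 ≤ ε) (hε1 : ε ≤ 1) (hBf : 0 ≤ Bf) (hLf : 0 ≤ Lf) (hLc : ‖lc‖ ≤ Lc)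
    (hM : 4 * ρ + 6 + Bf ≤ M)
    (hB : ∀ z : ℂ, ρ ≤ ‖z‖ → ‖z‖ ≤ 2 * ρ + 3 → ‖fp x z‖ ≤ Bf)
    (hL : ∀ z : ℂ, ρ ≤ ‖z‖ → ‖z‖ ≤ 2 * ρ + 3 → ‖deriv (fp x) z‖ ≤ Lf)
    {Φ : ℂ ≃ₜ ℂ} (h1 : ∀ z, ‖z‖ ≤ M → ‖Φ z - z‖ ≤ ε)
    (h2 : ∀ z, 2 * ρ ≤ ‖z‖ → ‖Φ z - z‖ ≤ 6 * κ * ‖z‖) {P' : Polynomial ℂ}
    (h6 : pol x' 0 = Polynomial.C lc * P')
    (h7 : pol x' 1 = Polynomial.C lc * ∏ p ∈ Z, (Polynomial.X - Polynomial.C (Φ p)))
    (h8 : ∀ z : ℂ, (z : OnePoint ℂ) ∈ U0 → z ∉ Z →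
        P'.eval (Φ z) = Φ (fp x z) * ∏ p ∈ Z, (Φ z - Φ p)) :
    ‖x' - x‖ ≤ Lc * ((3 * ρ + 3) ^ d * (1 + Lf + Bf * d + d)) * ε := by
  set R : ℝ := 2 * ρ + 2 with hR
  set A : ℝ := 3 * ρ + 3 with hA
  have hA1 : 1 ≤ A := by linarith
  have hA0 : 0 < A := by linarith
  have hAd : 0 < A ^ d := by positivity
  have hLc0 : 0 ≤ Lc := (norm_nonneg _).trans hLc
  have hcard := hg.card
  -- the products
  have hprod : ∀ w : ℂ, ‖w‖ = R → ‖∏ p ∈ Z, (w - Φ p)‖ ≤ A ^ d ∧ ‖∏ p ∈ Z, (w - p)‖ ≤ A ^ d ∧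
      ‖∏ p ∈ Z, (w - Φ p) - ∏ p ∈ Z, (w - p)‖ ≤ d * A ^ d * ε := by
    intro w hw
    have h3 : ∀ p ∈ Z, ‖Φ p - p‖ ≤ ε := fun p hp => h1 p (by linarith [hpf p hp])
    have h4 := prod_sub Z (fun p => w - Φ p) (fun p => w - p) (A := A) (ε := ε) hA1 hε0
      (fun p hp => by
        have e1 := h3 p hp
        have e2 := hpf p hp
        have e3 : w - Φ p = w - p - (Φ p - p) := by ring
        rw [e3]
        refine (norm_sub_le _ _).trans ?_
        have e4 := norm_sub_le w p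
        linarith)
      (fun p hp => by
        have e2 := hpf p hp
        have e4 := norm_sub_le w p
        linarith)
      (fun p hp => by
        have e3 : w - Φ p - (w - p) = -(Φ p - p) := by ring
        rw [e3, norm_neg]
        exact h3 p hp)
    rw [hcard] at h4
    exact h4
  have hQx : ∀ w, (pol x 1).eval w = lc * ∏ p ∈ Z, (w - p) := by
    intro w
    rw [hg.Q, Polynomial.eval_mul, Polynomial.eval_C, Polynomial.eval_prod]
    simp
  have hQx' : ∀ w, (pol x' 1).eval w = lc * ∏ p ∈ Z, (w - Φ p) := by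
    intro w
    rw [h7, Polynomial.eval_mul, Polynomial.eval_C, Polynomial.eval_prod]
    simp
  have hPx' : ∀ w, (pol x' 0).eval w = lc * P'.eval w := by
    intro w
    rw [h6, Polynomial.eval_mul, Polynomial.eval_C]
  -- the denominators
  have c1 : ∀ i, ‖(pol x' 1 - pol x 1).coeff i‖ ≤ Lc * (d * A ^ d * ε) := by
    intro i
    refine coeff_le_circle _ (R := R) (by linarith) (fun w hw => ?_) i
    rw [Polynomial.eval_sub, hQx, hQx', ← mul_sub, norm_mul]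
    exact mul_le_mul hLc (hprod w hw).2.2 (norm_nonneg _) hLc0
  -- the numerators
  have c0 : ∀ i, ‖(pol x' 0 - pol x 0).coeff i‖ ≤ Lc * (A ^ d * (1 + Lf + Bf * d) * ε) := by
    intro i
    refine coeff_le_circle _ (R := R) (by linarith) (fun w hw => ?_) i
    obtain ⟨z, rfl⟩ : ∃ z, w = Φ z := ⟨Φ.symm w, (Φ.apply_symm_apply w).symm⟩
    have hzM : ‖z‖ ≤ M := by
      by_contra hc
      push Not at hc
      have e1 := h2 z (by linarith)
      have e2 := norm_sub_norm_le z (Φ z)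
      rw [norm_sub_rev] at e2
      have e3 : 6 * κ * ‖z‖ ≤ 1 / 4 * ‖z‖ := by
        have := norm_nonneg z
        nlinarith
      linarith
    have hzw : ‖Φ z - z‖ ≤ ε := h1 z hzM
    have e1 := norm_sub_norm_le (Φ z) z
    have e2 := norm_sub_norm_le z (Φ z)
    rw [norm_sub_rev] at e2
    have hz1 : ρ ≤ ‖z‖ := by linarith
    have hz2 : ‖z‖ ≤ 2 * ρ + 3 := by linarith
    have hwR : ρ ≤ ‖Φ z‖ := by linarith
    have hzZ : z ∉ Z := fun h => absurd (hpf z h) (not_lt.2 hz1)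
    have hwZ : Φ z ∉ Z := fun h => absurd (hpf _ h) (not_lt.2 hwR)
    have hqne : ∀ v : ℂ, ρ ≤ ‖v‖ → qd x v ≠ 0 := fun v hv h0 =>
      absurd (hpf v ((hg.root v).2 h0)) (not_lt.2 hv)
    have hP : (pol x 0).eval (Φ z) = fp x (Φ z) * (lc * ∏ p ∈ Z, (Φ z - p)) := by
      have h3 : (pol x 1).eval (Φ z) ≠ 0 := hqne _ hwR
      rw [← hQx]
      show _ = (pol x 0).eval (Φ z) / (pol x 1).eval (Φ z) * (pol x 1).eval (Φ z)
      rw [div_mul_cancel₀ _ h3]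
    rw [Polynomial.eval_sub, hPx', h8 z (hfar z hz1) hzZ, hP]
    obtain ⟨p1, p2, p3⟩ := hprod (Φ z) hw
    have e3 : lc * (Φ (fp x z) * ∏ p ∈ Z, (Φ z - Φ p)) -
        fp x (Φ z) * (lc * ∏ p ∈ Z, (Φ z - p)) =
        lc * ((Φ (fp x z) - fp x z) * ∏ p ∈ Z, (Φ z - Φ p) +
          (fp x z - fp x (Φ z)) * ∏ p ∈ Z, (Φ z - Φ p) +
          fp x (Φ z) * (∏ p ∈ Z, (Φ z - Φ p) - ∏ p ∈ Z, (Φ z - p))) := by ring
    rw [e3, norm_mul]
    refine mul_le_mul hLc ?_ (norm_nonneg _) hLc0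
    have b1 : ‖fp x z‖ ≤ Bf := hB z hz1 hz2
    have b2 : ‖fp x (Φ z)‖ ≤ Bf := hB _ hwR (by linarith)
    have b3 : ‖Φ (fp x z) - fp x z‖ ≤ ε := h1 _ (by linarith)
    have b4 : ‖fp x z - fp x (Φ z)‖ ≤ Lf * ε := by
      have hcb : ∀ v ∈ closedBall (Φ z) 1, ρ ≤ ‖v‖ ∧ ‖v‖ ≤ 2 * ρ + 3 := by
        intro v hv
        rw [mem_closedBall, dist_eq_norm] at hv
        have e4 := norm_sub_norm_le (Φ z) v
        have e5 := norm_sub_norm_le v (Φ z)
        rw [norm_sub_rev] at e4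
        constructor <;> linarith
      have h3 := (convex_closedBall (Φ z) 1).norm_image_sub_le_of_norm_deriv_le (f := fp x)
        (C := Lf) (fun v hv => fp_diff (hqne v (hcb v hv).1))
        (fun v hv => hL v (hcb v hv).1 (hcb v hv).2) (mem_closedBall_self zero_le_one)
        (y := z) (by rw [mem_closedBall, dist_eq_norm, norm_sub_rev]; linarith)
      refine h3.trans ?_
      rw [norm_sub_rev z]
      exact mul_le_mul_of_nonneg_left hzw hLf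
    refine (norm_add_le _ _).trans ((add_le_add (norm_add_le _ _) le_rfl).trans ?_)
    rw [norm_mul, norm_mul, norm_mul]
    have t1 : ‖Φ (fp x z) - fp x z‖ * ‖∏ p ∈ Z, (Φ z - Φ p)‖ ≤ ε * A ^ d :=
      mul_le_mul b3 p1 (norm_nonneg _) hε0
    have t2 : ‖fp x z - fp x (Φ z)‖ * ‖∏ p ∈ Z, (Φ z - Φ p)‖ ≤ Lf * ε * A ^ d :=
      mul_le_mul b4 p1 (norm_nonneg _) (by positivity)
    have t3 : ‖fp x (Φ z)‖ * ‖∏ p ∈ Z, (Φ z - Φ p) - ∏ p ∈ Z, (Φ z - p)‖ ≤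
        Bf * (d * A ^ d * ε) := mul_le_mul b2 p3 (norm_nonneg _) hBf
    calc _ ≤ ε * A ^ d + Lf * ε * A ^ d + Bf * (d * A ^ d * ε) := by linarith
      _ = _ := by ring
  -- the result
  have hd0 : (0 : ℝ) ≤ d := Nat.cast_nonneg _
  have key : ∀ (i : Fin 2) (j : ℕ), ‖(pol x' i - pol x i).coeff j‖ ≤
      Lc * (A ^ d * (1 + Lf + Bf * d + d)) * ε := by
    intro i j
    have n1 : 0 ≤ Lc * (d * A ^ d * ε) := by positivity
    have n2 : 0 ≤ Lc * (A ^ d * (1 + Lf + Bf * d) * ε) := by positivity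
    fin_cases i
    · refine (c0 j).trans ?_
      calc _ ≤ Lc * (A ^ d * (1 + Lf + Bf * d) * ε) + Lc * (d * A ^ d * ε) := by linarith
        _ = _ := by ring
    · refine (c1 j).trans ?_
      calc _ ≤ Lc * (A ^ d * (1 + Lf + Bf * d) * ε) + Lc * (d * A ^ d * ε) := by linarith
        _ = _ := by ring
  rw [pi_norm_le_iff_of_nonneg (by positivity)]
  rintro ⟨i, j⟩
  rw [Pi.sub_apply, ← Pool.Agent.H790R3.RB.PQ.pol_coeff x' i j,
    ← Pool.Agent.H790R3.RB.PQ.pol_coeff x i j, ← Polynomial.coeff_sub]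
  exact key i j

end Pool.Agent.Helper23U
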