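import Pool.Agent.Helper23U.MoebU
import Pool.Agent.Helper23T.EndM
import Pool.Agent.Helper23S.Fin

/-!
# The bound by the area
-/

set_option autoImplicit false
set_option linter.unusedSectionVars false

open Set Filter Topology Metric
open scoped OnePoint

noncomputable section

namespace Pool.Agent.Helper23U

open Pool.Agent.H790R3.RB (CV hF ND sp pr hc pol HypTop Sink Attd PQ SP)
open Pool.Agent.Helper23S
open Pool.Agent.Helper23T

variable {d : ℕ}

/-- hyperbolic maps near a map for which the area is small -/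
theorem area_step (hd : 2 ≤ d) {x₀ : CV d} (hx₀ : ND x₀) {η₀ C γ : ℝ} (hη₀ : 0 < η₀) (hC : 0 < C)
    (hγ : 0 < γ) (hγ2 : γ < 1 / 2) :
    ∃ C' δ' : ℝ, 0 < C' ∧ 0 < δ' ∧ ∀ x, ND x → ‖x - x₀‖ < δ' → ∀ a : ℝ, a < δ' →
      Pool.Agent.W757.RF.sarea (Pool.Agent.W757.RF.JS (sp x)) < ENNReal.ofReal a →
      ∃ (y : CV d) (η : ℝ), ND y ∧ HypTop (sp y) ∧ 0 < η ∧ η ≤ η₀ ∧ ‖y - x‖ ≤ η ∧
        C * (η * (1 + Real.log (1 / η))) ≤ C' * a ^ γ := by
  set γ' : ℝ := (γ + 1 / 2) / 2 with hγ'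
  have hγ'0 : 0 < γ' := by linarith
  have hγγ' : γ < γ' := by linarith
  have hγ'2 : γ' < 1 / 2 := by linarith
  obtain ⟨Cr, δr, hCr, hδr, HR⟩ := Pool.Agent.W757.RD.main γ' d x₀ hγ'0 hγ'2 hd hx₀
  set s : ℝ := γ / γ' with hs
  have hs1 : s < 1 := by rw [hs, div_lt_one hγ'0]; exact hγγ'
  have hγs : γ' * s = γ := by rw [hs]; field_simp
  have h1s : 0 < 1 - s := by linarith
  set m : ℝ := min η₀ 1 / Cr with hm
  have hm0 : 0 < m := by positivity
  refine ⟨C * ((1 + 1 / (1 - s)) * Cr ^ s), min δr (m ^ (1 / γ')), by positivity,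
    lt_min hδr (by positivity), fun x hx hxx a ha har => ?_⟩
  have ha0 : 0 < a := by
    by_contra h
    rw [ENNReal.ofReal_of_nonpos (not_lt.1 h)] at har
    exact absurd har not_lt_zero
  have hag : 0 < a ^ γ' := Real.rpow_pos_of_pos ha0 _
  obtain ⟨y, hy1, hy2, hy3⟩ := HR x hx (hxx.trans_le (min_le_left _ _)) a ha0 har
  have ham : a ^ γ' ≤ m := by
    have h1 : a ≤ m ^ (1 / γ') := ha.le.trans (min_le_right _ _)
    have h2 := Real.rpow_le_rpow ha0.le h1 hγ'0.le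
    rwa [← Real.rpow_mul hm0.le, one_div, inv_mul_cancel₀ hγ'0.ne', Real.rpow_one] at h2
  have hη : Cr * a ^ γ' ≤ min η₀ 1 := by
    rw [hm, le_div_iff₀ hCr] at ham
    linarith
  refine ⟨y, Cr * a ^ γ', hy2, hy3, by positivity, hη.trans (min_le_left _ _), hy1, ?_⟩
  have h3 := log_rpow_bound (x := Cr * a ^ γ') (s := s) (by positivity)
    (hη.trans (min_le_right _ _)) hs1
  have h4 : (Cr * a ^ γ') ^ s = Cr ^ s * a ^ γ := by
    rw [Real.mul_rpow hCr.le hag.le, ← Real.rpow_mul ha0.le, hγs]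
  rw [h4] at h3
  have h5 := mul_le_mul_of_nonneg_left h3 hC.le
  refine h5.trans (le_of_eq ?_)
  ring

/-- the coefficients and the polynomials -/
theorem coef_le {x x' : CV d} {ε : ℝ} (hε : 0 ≤ ε) (h : ‖x' - x‖ ≤ ε) (i : Fin 2) (j : ℕ) :
    ‖(pol x' i).coeff j - (pol x i).coeff j‖ ≤ ε := by
  by_cases hj : d < j
  · rw [Pool.Agent.H790R3.RB.PQ.pol_coeff_gt x i j hj,
      Pool.Agent.H790R3.RB.PQ.pol_coeff_gt x' i j hj, sub_zero, norm_zero]
    exact hε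
  · have e1 := Pool.Agent.H790R3.RB.PQ.pol_coeff x i ⟨j, by omega⟩
    have e2 := Pool.Agent.H790R3.RB.PQ.pol_coeff x' i ⟨j, by omega⟩
    simp only at e1 e2
    rw [e1, e2]
    exact (norm_le_pi_norm (x' - x) (i, ⟨j, by omega⟩)).trans h

end Pool.Agent.Helper23U
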