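import Pool.Agent.Helper23U.Pers

/-!
# Lipschitz dependence on the coefficients
-/

set_option autoImplicit false
set_option linter.unusedSectionVars false

open Set Filter Topology Metric
open scoped OnePoint

noncomputable section

namespace Pool.Agent.Helper23U

open Pool.Agent.H790R3.RB (CV hF ND sp pr hc pol HypTop Sink Attd PQ SP)
open Pool.Agent.Helper23T

variable {d : ℕ}

theorem deriv_eq {q : CV d × ℂ} (h : qd q.1 q.2 ≠ 0) :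
    deriv (fp q.1) q.2 = fderiv ℂ (fun q : CV d × ℂ => fp q.1 q.2) q (0, 1) := by
  have h4 : HasFDerivAt (fun q : CV d × ℂ => fp q.1 q.2)
      (fderiv ℂ (fun q : CV d × ℂ => fp q.1 q.2) (q.1, q.2)) (q.1, q.2) :=
    ((fp_contDiffAt h).differentiableAt (by simp)).hasFDerivAt
  have h5 : HasDerivAt (fun z : ℂ => ((q.1, z) : CV d × ℂ)) ((0, 1) : CV d × ℂ) q.2 :=
    (hasDerivAt_const q.2 q.1).prodMk (hasDerivAt_id q.2)
  have h6 := h4.comp_hasDerivAt q.2 h5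
  have h7 : HasDerivAt (fp q.1) _ q.2 := h6
  exact h7.deriv

/-- Lipschitz dependence on the coefficients, uniformly on compact sets -/
theorem fp_lip (x₀ : CV d) {K : Set ℂ} (hK : IsCompact K) (hq : ∀ z ∈ K, qd x₀ z ≠ 0) :
    ∃ Λ : ℝ, 0 < Λ ∧ ∃ A ∈ 𝓝 x₀, ∀ x ∈ A, ∀ y ∈ A, ∀ z ∈ K, qd y z ≠ 0 ∧
      ‖fp y z - fp x z‖ ≤ Λ * ‖y - x‖ ∧ ‖deriv (fp y) z - deriv (fp x) z‖ ≤ Λ * ‖y - x‖ := by
  refine hK.induction_on (p := fun K => ∃ Λ : ℝ, 0 < Λ ∧ ∃ A ∈ 𝓝 x₀, ∀ x ∈ A, ∀ y ∈ A, ∀ z ∈ K,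
      qd y z ≠ 0 ∧ ‖fp y z - fp x z‖ ≤ Λ * ‖y - x‖ ∧
        ‖deriv (fp y) z - deriv (fp x) z‖ ≤ Λ * ‖y - x‖) ?_ ?_ ?_ ?_
  · exact ⟨1, one_pos, univ, univ_mem, fun x _ y _ z hz => absurd hz (notMem_empty z)⟩
  · rintro s t hst ⟨Λ, h1, A, hA, h2⟩
    exact ⟨Λ, h1, A, hA, fun x hx y hy z hz => h2 x hx y hy z (hst hz)⟩
  · rintro s t ⟨Λ, h1, A, hA, h2⟩ ⟨Λ', h1', A', hA', h2'⟩
    refine ⟨max Λ Λ', lt_max_of_lt_left h1, A ∩ A', inter_mem hA hA', fun x hx y hy z hz => ?_⟩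
    rcases hz with hz | hz
    · obtain ⟨e1, e2, e3⟩ := h2 x hx.1 y hy.1 z hz
      have h3 : Λ * ‖y - x‖ ≤ max Λ Λ' * ‖y - x‖ :=
        mul_le_mul_of_nonneg_right (le_max_left _ _) (norm_nonneg _)
      exact ⟨e1, e2.trans h3, e3.trans h3⟩
    · obtain ⟨e1, e2, e3⟩ := h2' x hx.2 y hy.2 z hz
      have h3 : Λ' * ‖y - x‖ ≤ max Λ Λ' * ‖y - x‖ :=
        mul_le_mul_of_nonneg_right (le_max_right _ _) (norm_nonneg _)
      exact ⟨e1, e2.trans h3, e3.trans h3⟩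
  · intro z hz
    have h0 : qd (x₀, z).1 (x₀, z).2 ≠ 0 := hq z hz
    have h1 : ContDiffAt ℂ 1 (fun q : CV d × ℂ => fp q.1 q.2) (x₀, z) :=
      (fp_contDiffAt h0).of_le (by exact_mod_cast le_top)
    have h2 : ContDiffAt ℂ 1 (fun q : CV d × ℂ =>
        fderiv ℂ (fun q : CV d × ℂ => fp q.1 q.2) q (0, 1)) (x₀, z) := by
      have h3 : ContDiffAt ℂ (⊤ : ℕ∞) (fderiv ℂ (fun q : CV d × ℂ => fp q.1 q.2)) (x₀, z) :=
        (fp_contDiffAt h0).fderiv_right (by simp)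
      have h4 : ContDiffAt ℂ (⊤ : ℕ∞) (fun q : CV d × ℂ =>
        fderiv ℂ (fun q : CV d × ℂ => fp q.1 q.2) q (0, 1)) (x₀, z) := h3.clm_apply contDiffAt_const
      exact h4.of_le (by exact_mod_cast le_top)
    obtain ⟨K1, t1, ht1, hL1⟩ := (h1.restrict_scalars ℝ).exists_lipschitzOnWith
    obtain ⟨K2, t2, ht2, hL2⟩ := (h2.restrict_scalars ℝ).exists_lipschitzOnWith
    have h3 : ∀ᶠ p : CV d × ℂ in 𝓝 (x₀, z), qd p.1 p.2 ≠ 0 := qd_cont.continuousAt.eventually_ne h0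
    have h4 : t1 ∩ t2 ∩ {p : CV d × ℂ | qd p.1 p.2 ≠ 0} ∈ 𝓝 (x₀, z) :=
      inter_mem (inter_mem ht1 ht2) h3
    rw [nhds_prod_eq, mem_prod_iff] at h4
    obtain ⟨A, hA, B, hB, hAB⟩ := h4
    refine ⟨B, mem_nhdsWithin_of_mem_nhds hB, max (K1 : ℝ) K2 + 1, by positivity, A, hA,
      fun x hx y hy w hw => ?_⟩
    obtain ⟨⟨e1, e2⟩, e3⟩ := hAB (mk_mem_prod hx hw)
    obtain ⟨⟨e1', e2'⟩, e3'⟩ := hAB (mk_mem_prod hy hw)
    have hdist : dist ((y, w) : CV d × ℂ) (x, w) = ‖y - x‖ := by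
      rw [Prod.dist_eq, dist_self, dist_eq_norm]
      exact max_eq_left (norm_nonneg _)
    have hn := norm_nonneg (y - x)
    refine ⟨e3', ?_, ?_⟩
    · have h5 := hL1.dist_le_mul _ e1' _ e1
      rw [hdist, dist_eq_norm] at h5
      refine h5.trans (mul_le_mul_of_nonneg_right ?_ hn)
      exact (le_max_left _ _).trans (by linarith)
    · have h5 := hL2.dist_le_mul _ e2' _ e2
      rw [hdist, dist_eq_norm] at h5
      have e4 : deriv (fp y) w = _ := deriv_eq (q := (y, w)) e3'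
      have e5 : deriv (fp x) w = _ := deriv_eq (q := (x, w)) e3
      rw [e4, e5]
      refine h5.trans (mul_le_mul_of_nonneg_right ?_ hn)
      exact (le_max_right _ _).trans (by linarith)

end Pool.Agent.Helper23U
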