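import Pool.Agent.Helper23U.NormU
import Pool.Agent.Helper23T.MoebM

/-!
# The quantitative theorem for rational maps
-/

set_option autoImplicit false
set_option linter.unusedSectionVars false

open Set Filter Topology Metric
open scoped OnePoint

noncomputable section

namespace Pool.Agent.Helper23U

open Pool.Agent.H790R3.RB (CV hF ND sp pr hc pol HypTop Sink Attd PQ SP cr wr hF_smul cr_smul_left
  cr_smul_right cr_self cr_comm)
open Pool.Agent.Helper23S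
open Pool.Agent.Helper23T
open Pool.Agent.W440.RE.GENM

variable {d : ℕ}

theorem lin_lip {S : CV d → CV d} (h1 : ∀ x y, S (x + y) = S x + S y)
    (h2 : ∀ (a : ℂ) x, S (a • x) = a • S x) : ∃ L : ℝ, ∀ x y, ‖S x - S y‖ ≤ L * ‖x - y‖ := by
  let f : CV d →ₗ[ℂ] CV d := ⟨⟨S, h1⟩, h2⟩
  let g : CV d →L[ℂ] CV d := LinearMap.toContinuousLinearMap f
  refine ⟨‖g‖, fun x y => ?_⟩
  have h3 : S x - S y = g (x - y) := by
    rw [map_sub]
    rfl
  rw [h3]
  exact g.le_opNorm _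

/-- Moebius coordinates which send `w` to infinity -/
theorem mobL (hd : 1 ≤ d) (w : ℂ) : ∃ (h : OnePoint ℂ ≃ₜ OnePoint ℂ) (S T : CV d → CV d),
    (∀ p : ℂ × ℂ, p ≠ 0 → h (pr p) = pr (mm w p)) ∧ Continuous S ∧ Continuous T ∧
    (∃ L : ℝ, 1 ≤ L ∧ (∀ x y, ‖S x - S y‖ ≤ L * ‖x - y‖) ∧ ∀ x y, ‖T x - T y‖ ≤ L * ‖x - y‖) ∧
    (∀ y p, hF (S y) p = mm w (hF y (ad w p))) ∧ (∀ y, T (S y) = y) ∧
    (∀ y, ND y → ND (S y) ∧ ∀ z, h (sp y z) = sp (S y) (h z)) ∧
    ∀ y, ND y → ND (T y) ∧ ∀ z, h (sp (T y) z) = sp y (h z) := by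
  obtain ⟨h, hh, -⟩ := Pool.Agent.H790R3.RB.MOB Pool.Agent.H790R3.RB.SP 0 1 1 (-w) (by norm_num)
  obtain ⟨cj, hcjc, hcja, hcjs, -, hcjF⟩ := Pool.Agent.H790R3.RB.CJ d
  set S : CV d → CV d := fun y => cj ((0, 1), (1, -w)) y with hS
  set s : ℂ := (-1) ^ (d + 1) with hs
  have hs0 : s ≠ 0 := pow_ne_zero _ (by norm_num)
  set T : CV d → CV d := fun y => s • cj ((-w, -1), (-1, 0)) y with hT
  have hh' : ∀ p : ℂ × ℂ, p ≠ 0 → h (pr p) = pr (mm w p) := by
    intro p hp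
    rw [hh p hp]
    congr 1
    unfold mm
    ext
    · simp
    · simp; ring
  have hSF : ∀ y p, hF (S y) p = mm w (hF y (ad w p)) := by
    intro y p
    rw [hS]
    simp only
    rw [hcjF]
    have e : ((-w * p.1 - 1 * p.2, 0 * p.2 - 1 * p.1) : ℂ × ℂ) = ad w p := by
      unfold ad; ext <;> simp
    simp only
    rw [e]
    unfold mm
    ext
    · simp
    · simp; ring
  have hTF : ∀ y p, hF (T y) p = s • ad w (hF y (mm w p)) := by
    intro y p
    rw [hT]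
    simp only
    rw [hF_smul_left, hcjF]
    congr 1
    have e : ((0 * p.1 - -1 * p.2, -w * p.2 - -1 * p.1) : ℂ × ℂ) = mm w p := by
      unfold mm; ext
      · simp
      · simp; ring
    simp only
    rw [e]
    unfold ad
    ext
    · simp; ring
    · simp
  have hSND : ∀ y, ND y → ND (S y) := by
    intro y hy p hp
    rw [hSF] at hp
    exact ad_zero (hy _ (mm_zero hp))
  have hTND : ∀ y, ND y → ND (T y) := by
    intro y hy p hp
    rw [hTF] at hp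
    have h1 := (smul_eq_zero.1 hp).resolve_left hs0
    exact mm_zero (hy _ (ad_zero h1))
  have hsp : ∀ (y : CV d), ND y → ∀ p : ℂ × ℂ, p ≠ 0 → sp y (pr p) = pr (hF y p) := by
    intro y hy p hp
    have := (Pool.Agent.H790R3.RB.SP d y hd hy).2.1 p hp 1
    simpa using this
  have hprs : ∀ (a : ℂ) (p : ℂ × ℂ), a ≠ 0 → p ≠ 0 → pr (a • p) = pr p := by
    intro a p ha hp
    refine (Pool.Agent.H790R3.RB.SP.pr_eq_iff (smul_ne_zero ha hp) hp).2 ?_
    rw [cr_smul_left, cr_self, mul_zero]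
  have hmmne : ∀ p : ℂ × ℂ, p ≠ 0 → mm w p ≠ 0 := fun p hp h0 => hp (mm_zero h0)
  have hadne : ∀ p : ℂ × ℂ, p ≠ 0 → ad w p ≠ 0 := fun p hp h0 => hp (ad_zero h0)
  have hhc := Pool.Agent.H790R3.RB.SP.pr_hc
  have hLip : ∃ L : ℝ, 1 ≤ L ∧ (∀ x y, ‖S x - S y‖ ≤ L * ‖x - y‖) ∧
      ∀ x y, ‖T x - T y‖ ≤ L * ‖x - y‖ := by
    obtain ⟨L1, hL1⟩ := lin_lip (S := S) (fun x y => hcja _ x y) (fun a x => hcjs _ a x)
    obtain ⟨L2, hL2⟩ := lin_lip (S := T) (fun x y => by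
      rw [hT]
      simp only
      rw [hcja, smul_add]) (fun a x => by
      rw [hT]
      simp only
      rw [hcjs, smul_comm])
    refine ⟨max 1 (max L1 L2), le_max_left _ _, fun x y => (hL1 x y).trans ?_,
      fun x y => (hL2 x y).trans ?_⟩
    · exact mul_le_mul_of_nonneg_right ((le_max_left _ _).trans (le_max_right _ _)) (norm_nonneg _)
    · exact mul_le_mul_of_nonneg_right ((le_max_right _ _).trans (le_max_right _ _)) (norm_nonneg _)
  refine ⟨h, S, T, hh', ?_, ?_, hLip, hSF, ?_, ?_, ?_⟩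
  · exact hcjc.continuous.comp (Continuous.prodMk_right _)
  · have h1 : Continuous (fun y : CV d => cj ((-w, -1), (-1, 0)) y) :=
      hcjc.continuous.comp (Continuous.prodMk_right _)
    exact h1.const_smul s
  · intro y
    apply hF_inj
    intro p
    rw [hTF, hSF, ad_mm, ad_mm, hF_smul]
    rw [smul_smul, smul_smul]
    have e : s * (-1) * (-1) ^ d = 1 := by
      rw [hs, pow_succ, mul_assoc ((-1 : ℂ) ^ d) (-1) (-1)]
      rw [show (-1 : ℂ) * -1 = 1 by norm_num, mul_one, ← mul_pow]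
      norm_num
    rw [e, one_smul]
  · intro y hy
    refine ⟨hSND y hy, ?_⟩
    intro z
    obtain ⟨e1, e2⟩ := hhc z
    have h1 : h (sp y z) = pr (mm w (hF y (hc z))) := hh' _ (hF_ne hy e2)
    have h2 : sp (S y) (h z) = pr (hF (S y) (mm w (hc z))) := by
      conv_lhs => rw [← e1, hh' _ e2]
      exact hsp _ (hSND y hy) _ (hmmne _ e2)
    rw [h1, h2, hSF, ad_mm, hF_smul, mm_smul, hprs _ _ (pow_ne_zero _ (by norm_num))
      (hmmne _ (hF_ne hy e2))]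
  · intro y hy
    refine ⟨hTND y hy, ?_⟩
    intro z
    obtain ⟨e1, e2⟩ := hhc z
    have h1 : h (sp (T y) z) = pr (mm w (hF (T y) (hc z))) := hh' _ (hF_ne (hTND y hy) e2)
    have h2 : sp y (h z) = pr (hF y (mm w (hc z))) := by
      conv_lhs => rw [← e1, hh' _ e2]
      exact hsp y hy _ (hmmne _ e2)
    rw [h1, h2, hTF, mm_smul, mm_ad, smul_smul,
      hprs _ _ (mul_ne_zero hs0 (by norm_num)) (hF_ne hy (hmmne _ e2))]

/-- **the quantitative theorem for rational maps** -/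
theorem mainU (hd : 2 ≤ d) {x : CV d} (hx : ND x)
    {K : Set (OnePoint ℂ)} (hK : IsCompact K) (hKa : ∀ z ∈ K, Attd (sp x) z) :
    ∃ V D : Set (OnePoint ℂ), IsOpen V ∧ IsClosed D ∧ K ⊆ V ∧ V ⊆ D ∧
      ∃ C η₀ : ℝ, 0 < C ∧ 0 < η₀ ∧ η₀ ≤ 1 ∧ ∃ N ∈ 𝓝 x, ∀ v ∈ N, ND v ∧
        (∀ z ∈ D, sp v z ∈ V) ∧ (∀ z ∈ D, Attd (sp v) z) ∧
        ∀ y, ND y → ∀ η : ℝ, 0 < η → η ≤ η₀ → ‖y - v‖ ≤ η →
          ∃ (φ : OnePoint ℂ ≃ₜ OnePoint ℂ) (v' : CV d), ND v' ∧ (HypTop (sp y) → HypTop (sp v')) ∧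
            ‖v' - v‖ ≤ C * (η * (1 + Real.log (1 / η))) ∧
            (∀ z, chordal z (φ z) ≤ C * (η * (1 + Real.log (1 / η)))) ∧
            (∀ z ∈ V, sp v' (φ z) = φ (sp v z)) ∧ (∀ z ∉ D, sp v' (φ z) = φ (sp y z)) ∧
            (∀ z ∈ D, sp v' (φ z) ∈ φ '' V) ∧ ∀ z ∈ V, HolAt φ z := by
  classical
  rcases K.eq_empty_or_nonempty with hK0 | ⟨z0, hz0⟩
  · refine ⟨∅, ∅, isOpen_empty, isClosed_empty, by rw [hK0], subset_rfl, 1, 1, one_pos, one_pos,
      le_rfl, {v | ND v}, Pool.Agent.H790R3.RB.FAM.ND_open hx, fun v hv => ⟨hv,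
      fun z hz => absurd hz (notMem_empty z), fun z hz => absurd hz (notMem_empty z),
      fun y hynd η hη0 hη1 hyv => ?_⟩⟩
    have hl : 0 ≤ Real.log (1 / η) := Real.log_nonneg (by rw [le_div_iff₀ hη0]; linarith)
    have h1 : η ≤ 1 * (η * (1 + Real.log (1 / η))) := by nlinarith
    refine ⟨Homeomorph.refl _, y, hynd, id, hyv.trans h1, fun z => ?_,
      fun z hz => absurd hz (notMem_empty z), fun z _ => rfl,
      fun z hz => absurd hz (notMem_empty z), fun z hz => absurd hz (notMem_empty z)⟩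
    have h2 : chordal z z = 0 := by
      induction z using OnePoint.rec with
      | infty => rfl
      | coe z =>
        show ‖z - z‖ / _ = 0
        rw [sub_self, norm_zero, zero_div]
    show chordal z z ≤ _
    rw [h2]
    linarith
  have hd1 : 1 ≤ d := by omega
  have hspc := Pool.Agent.H790R3.RB.SP.sp_cont hx
  -- the point which is sent to infinity
  obtain ⟨w, hwA, hwb⟩ : ∃ w : ℂ, Attd (sp x) (w : OnePoint ℂ) ∧
      ¬ (cr (hF x (w, 1)) (w, 1) = 0 ∨ wr x (w, 1) = 0 ∨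
      (∃ q : ℂ × ℂ, q ≠ 0 ∧ wr x q = 0 ∧ cr (hF x q) (w, 1) = 0) ∨
      (w : OnePoint ℂ) ∈ (∅ : Finset (OnePoint ℂ))) := by
    obtain ⟨U, hU, hUz, -, hUa⟩ := trap hspc (K := {z0}) isCompact_singleton (by
      rintro z rfl
      exact hKa _ hz0)
    have h1 : IsOpen {w : ℂ | (w : OnePoint ℂ) ∈ U} := hU.preimage OnePoint.continuous_coe
    have h2 : {w : ℂ | (w : OnePoint ℂ) ∈ U}.Nonempty := by
      obtain ⟨z, hz1, hz2⟩ := (OnePoint.denseRange_coe (X := ℂ)).inter_open_nonempty U hU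
        ⟨z0, hUz rfl⟩
      obtain ⟨w, rfl⟩ := hz2
      exact ⟨w, hz1⟩
    have h3 : {w : ℂ | (w : OnePoint ℂ) ∈ U}.Infinite := by
      obtain ⟨w, hw⟩ := h2
      exact infinite_of_mem_nhds w (h1.mem_nhds hw)
    obtain ⟨w, hw1, hw2⟩ := (h3.sdiff (bad_finite hd x hx ∅)).nonempty
    exact ⟨w, hUa _ (subset_closure hw1), hw2⟩
  push Not at hwb
  obtain ⟨hw1, hw2, hw3, -⟩ := hwb
  obtain ⟨h, S, T, hh, hSc, hTc, ⟨L, hL1, hLS, hLT⟩, hSF, hTS, hS, hT⟩ := mobL (d := d) hd1 w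
  set x₁ := S x with hx₁
  obtain ⟨hx₁nd, hx₁c⟩ := hS x hx
  obtain ⟨Z, lc, hg⟩ := gen_of (ginf_of hd w (hSF x) hw1 hw2 hw3)
  -- conjugacies
  have hit : ∀ (k : ℕ) (z : OnePoint ℂ), (sp x₁)^[k] (h z) = h ((sp x)^[k] z) := by
    intro k
    induction k with
    | zero => intro z; rfl
    | succ k ih =>
      intro z
      rw [Function.iterate_succ_apply', Function.iterate_succ_apply', ih, hx₁c]
  have hAtt : ∀ z, Attd (sp x) z → Attd (sp x₁) (h z) := by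
    rintro z ⟨n, a, ⟨hn, hfix, U, hU, hUV⟩, ht⟩
    refine ⟨n, h a, ⟨hn, by rw [hit, hfix], h '' U, h.isOpenMap.image_mem_nhds hU, fun V hV => ?_⟩, ?_⟩
    · have h1 : h ⁻¹' V ∈ 𝓝 a := h.continuous.continuousAt.preimage_mem_nhds hV
      filter_upwards [hUV _ h1] with k hk
      rintro _ ⟨u, hu, rfl⟩
      rw [hit]
      exact hk u hu
    · have h1 := (h.continuous.tendsto a).comp ht
      refine h1.congr fun k => ?_
      rw [hit]
      rfl
  have hw11 : ((w : ℂ), (1 : ℂ)) ≠ 0 := fun h => one_ne_zero (congrArg Prod.snd h)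
  have hhw : h (w : OnePoint ℂ) = ∞ := by
    have e1 : pr ((w : ℂ), (1 : ℂ)) = (w : OnePoint ℂ) := by
      rw [Pool.Agent.H790R3.RB.SP.pr_ne (by simp)]
      simp
    rw [← e1, hh _ hw11]
    exact Pool.Agent.H790R3.RB.SP.pr_zero (by unfold mm; simp)
  have hinfA : Attd (sp x₁) ∞ := by
    rw [← hhw]
    exact hAtt _ hwA
  have hspc₁ := Pool.Agent.H790R3.RB.SP.sp_cont hx₁nd
  have hZA : ∀ p ∈ Z, Attd (sp x₁) (p : OnePoint ℂ) := by
    intro p hp
    refine attd_of_succ hspc₁ ?_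
    rw [sp_pole x₁ ((hg.root p).1 hp)]
    exact hinfA
  -- the trapping neighbourhood
  set K₁ : Set (OnePoint ℂ) := h '' K ∪ ({∞} ∪ (↑) '' (Z : Set ℂ)) with hK₁
  have hK₁c : IsCompact K₁ :=
    (hK.image h.continuous).union (isCompact_singleton.union
      ((Z.finite_toSet.isCompact).image OnePoint.continuous_coe))
  obtain ⟨U0, hUo, hKU, htr, hUA⟩ := trap hspc₁ hK₁c (by
    rintro z (⟨z, hz, rfl⟩ | hz | ⟨p, hp, rfl⟩)
    · exact hAtt z (hKa z hz)
    · rw [mem_singleton_iff.1 hz]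
      exact hinfA
    · exact hZA p hp)
  have hinfU : ∞ ∈ U0 := hKU (Or.inr (Or.inl rfl))
  have hZU : ∀ p ∈ Z, (p : OnePoint ℂ) ∈ U0 := fun p hp => hKU (Or.inr (Or.inr ⟨p, hp, rfl⟩))
  -- the function
  obtain ⟨U1, hU1o, hU1s, hU1c⟩ := normal_exists_closure_subset
    ((isClosed_closure.isCompact.image hspc₁).isClosed (s := sp x₁ '' closure U0)) hUo (by
      rintro _ ⟨z, hz, rfl⟩
      exact htr z hz)
  have hC0 : IsClosed {z : ℂ | sp x₁ z ∉ U1} :=
    (hU1o.preimage (hspc₁.comp OnePoint.continuous_coe)).isClosed_compl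
  have hC1 : IsClosed {z : ℂ | (z : OnePoint ℂ) ∈ closure U0} :=
    isClosed_closure.preimage OnePoint.continuous_coe
  have hdis : Disjoint {z : ℂ | sp x₁ z ∉ U1} {z : ℂ | (z : OnePoint ℂ) ∈ closure U0} := by
    rw [Set.disjoint_left]
    intro z h1 h2
    exact h1 (hU1s ⟨_, h2, rfl⟩)
  obtain ⟨χ, hχs, -, hχ0, hχ1⟩ := exists_contMDiff_zero_iff_one_iff_of_isClosed
    (n := (⊤ : ℕ∞)) (modelWithCornersSelf ℝ ℂ) hC0 hC1 hdis
  have hχs' : ContDiff ℝ (⊤ : ℕ∞) χ := hχs.contDiff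
  have hχU : ∀ z : ℂ, 0 < χ z → sp x₁ z ∈ U1 := by
    intro z hz
    by_contra hc
    have := (hχ0 z).1 hc
    linarith
  have hE : ∀ z ∈ closure ((↑) '' {z : ℂ | 0 < χ z} : Set (OnePoint ℂ)), sp x₁ z ∈ U0 := by
    intro z hz
    have h1 : closure ((↑) '' {z : ℂ | 0 < χ z} : Set (OnePoint ℂ)) ⊆ sp x₁ ⁻¹' closure U1 := by
      refine closure_minimal ?_ (isClosed_closure.preimage hspc₁)
      rintro _ ⟨w, hw, rfl⟩
      exact subset_closure (hχU w hw)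
    exact hU1c (h1 hz)
  -- the levels
  obtain ⟨Cr, -, hCr⟩ := crit_card hd hx₁nd
  obtain ⟨a0, b0, ha0, hab, hb1, hnc⟩ : ∃ a0 b0 : ℝ, 0 < a0 ∧ a0 < b0 ∧ b0 < 1 ∧
      ∀ t ∈ Cr.image χ, ¬ (a0 ≤ t ∧ t ≤ b0) := by
    have h1 : (Ioo (0 : ℝ) 1 \ (Cr.image χ : Set ℝ)).Nonempty :=
      ((Ioo_infinite (by norm_num : (0 : ℝ) < 1)).sdiff (Cr.image χ).finite_toSet).nonempty
    obtain ⟨t, ht1, ht2⟩ := h1
    have h2 : Ioo (0 : ℝ) 1 \ (Cr.image χ : Set ℝ) ∈ 𝓝 t :=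
      (isOpen_Ioo.sdiff (Cr.image χ).finite_toSet.isClosed).mem_nhds ⟨ht1, ht2⟩
    obtain ⟨r, hr, hrs⟩ := Metric.mem_nhds_iff.1 h2
    have h3 : ∀ s, t - r / 2 ≤ s → s ≤ t + r / 2 → s ∈ Ioo (0 : ℝ) 1 \ (Cr.image χ : Set ℝ) := by
      intro s hs1 hs2
      apply hrs
      rw [mem_ball, Real.dist_eq, abs_lt]
      constructor <;> linarith
    refine ⟨t - r / 2, t + r / 2, (h3 _ le_rfl (by linarith)).1.1, by linarith,
      (h3 _ (by linarith) le_rfl).1.2, fun s hs hs2 => ?_⟩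
    exact (h3 s hs2.1 hs2.2).2 hs
  -- the radius
  obtain ⟨ρ, hρ1, hfar, hpf⟩ : ∃ ρ : ℝ, 1 ≤ ρ ∧ (∀ z : ℂ, ρ ≤ ‖z‖ → (z : OnePoint ℂ) ∈ U0) ∧
      ∀ p ∈ Z, ‖p‖ < ρ := by
    have h1 : ∀ᶠ z : ℂ in Bornology.cobounded ℂ, (z : OnePoint ℂ) ∈ U0 := by
      have h2 := (OnePoint.tendsto_coe_infty (X := ℂ)).eventually (hUo.mem_nhds hinfU)
      rwa [coclosedCompact_eq_cocompact, ← Metric.cobounded_eq_cocompact] at h2
    obtain ⟨r, -, hr⟩ := (Metric.hasBasis_cobounded_compl_closedBall (0 : ℂ)).eventually_iff.1 h1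
    have h2 : 0 ≤ ∑ p ∈ Z, ‖p‖ := Finset.sum_nonneg fun _ _ => norm_nonneg _
    have h3 := abs_nonneg r
    refine ⟨1 + |r| + ∑ p ∈ Z, ‖p‖, by linarith, fun z hz => ?_, fun p hp => ?_⟩
    · refine hr (x := z) ?_
      rw [mem_compl_iff, mem_closedBall_zero_iff, not_le]
      have := le_abs_self r
      linarith
    · have := Finset.single_le_sum (f := fun p : ℂ => ‖p‖) (fun _ _ => norm_nonneg _) hp
      linarith
  have D : Data x₁ U0 Z χ a0 b0 ρ := by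
    refine ⟨hd, hx₁nd, hUo, hinfU, hg.root, hZU, htr, fun z hz => hUA z (subset_closure hz), hχs',
      ?_, ?_, ha0, hab, hb1, ?_, hρ1, hfar⟩
    · intro z hz
      exact (hχ1 z).1 (subset_closure hz)
    · intro z hz
      exact hU1c (subset_closure (hχU z hz))
    · intro z hz1 hz2 hder
      have hq : qd x₁ z ≠ 0 := by
        intro h0
        have h1 := (hχ1 z).1 (subset_closure (hZU z ((hg.root z).2 h0)))
        linarith
      exact hnc (χ z) (Finset.mem_image_of_mem χ (hCr z hq hder)) ⟨hz1, hz2⟩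
  obtain ⟨C, η₀, hC, hη₀, hη₀1, N, hN, hmain⟩ := normU D hg hpf hE
  have hL0 : 0 < L := by linarith
  set Kw : ℝ := 2 + 2 * ‖w‖ ^ 2 with hKw
  have hKw1 : 1 ≤ Kw := by nlinarith [sq_nonneg ‖w‖]
  refine ⟨h ⁻¹' U0, h ⁻¹' Dm χ a0, hUo.preimage h.continuous,
    (Dm_closed hχs'.continuous a0).preimage h.continuous, fun z hz => hKU (Or.inl ⟨z, hz, rfl⟩),
    preimage_mono D.UD, L * L * Kw * C, η₀ / L, by positivity, by positivity, ?_,
    {v | ND v ∧ S v ∈ N}, inter_mem (Pool.Agent.H790R3.RB.FAM.ND_open hx)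
      (hSc.continuousAt.preimage_mem_nhds hN), ?_⟩
  · rw [div_le_one hL0]
    linarith
  rintro v ⟨hvnd, hvN⟩
  obtain ⟨hSvnd, hSvc⟩ := hS v hvnd
  obtain ⟨-, -, -, hDmU, hstep⟩ := hmain (S v) hvN
  obtain ⟨-, -, hattS, -, -⟩ := hmain (S v) hvN
  have hsymm : ∀ z, h.symm (sp (S v) z) = sp v (h.symm z) := by
    intro z
    rw [Homeomorph.symm_apply_eq, hSvc, h.apply_symm_apply]
  refine ⟨hvnd, fun z hz => ?_, fun z hz => ?_, fun y hynd η hη0 hηle hyv => ?_⟩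
  · show h (sp v z) ∈ U0
    rw [hSvc]
    exact hDmU _ hz
  · have h1 := hattS _ (subset_closure (hDmU _ hz))
    rw [← hSvc] at h1
    have h2 := attd_conj h.symm hsymm h1
    rw [h.symm_apply_apply] at h2
    exact attd_of_succ (Pool.Agent.H790R3.RB.SP.sp_cont hvnd) h2
  obtain ⟨hSnd, hSconj⟩ := hS y hynd
  have hηL : L * η ≤ η₀ := by
    rw [le_div_iff₀ hL0] at hηle
    linarith
  obtain ⟨φ₁, x₁', hnd', hyp', hcl', hφW, hconj, hconj2, hDm, hhol⟩ :=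
    hstep (S y) hSnd (L * η) (by positivity) hηL
      ((hLS y v).trans (mul_le_mul_of_nonneg_left hyv hL0.le))
  obtain ⟨hTnd, hTconj⟩ := hT x₁' hnd'
  -- the logarithm
  have hη1 : η ≤ 1 := by
    have h1 : η₀ / L ≤ 1 := by
      rw [div_le_one hL0]
      linarith
    linarith
  have hlog0 : 0 ≤ Real.log (1 / η) := Real.log_nonneg (by rw [le_div_iff₀ hη0]; linarith)
  have hlog : Real.log (1 / (L * η)) ≤ Real.log (1 / η) :=
    Real.log_le_log (by positivity) (one_div_le_one_div_of_le hη0 (by nlinarith))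
  have hX : L * η * (1 + Real.log (1 / (L * η))) ≤ L * (η * (1 + Real.log (1 / η))) := by
    rw [mul_assoc]
    refine mul_le_mul_of_nonneg_left ?_ hL0.le
    exact mul_le_mul_of_nonneg_left (by linarith) hη0.le
  have hY0 : 0 ≤ η * (1 + Real.log (1 / η)) := by positivity
  have hCX : C * (L * η * (1 + Real.log (1 / (L * η)))) ≤ C * L * (η * (1 + Real.log (1 / η))) := by
    rw [mul_assoc C L]
    exact mul_le_mul_of_nonneg_left hX hC.le
  refine ⟨(h.trans φ₁).trans h.symm, T x₁', hTnd, fun hyp => ?_,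
    ?_, ?_, ?_, ?_, ?_, ?_⟩
  · refine hyp_conj h.symm (fun z => ?_) (hyp' (hyp_conj h (fun z => (hSconj z).symm) hyp))
    rw [Homeomorph.eq_symm_apply, hTconj, h.apply_symm_apply]
  · have h1 := hLT x₁' (S v)
    rw [hTS] at h1
    refine h1.trans ?_
    have h2 : L * ‖x₁' - S v‖ ≤ L * (C * L * (η * (1 + Real.log (1 / η)))) :=
      mul_le_mul_of_nonneg_left (hcl'.trans hCX) hL0.le
    refine h2.trans ?_
    have h3 : L * (C * L * (η * (1 + Real.log (1 / η)))) = L * L * 1 * C *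
      (η * (1 + Real.log (1 / η))) := by ring
    rw [h3]
    refine mul_le_mul_of_nonneg_right ?_ hY0
    have : 0 ≤ L * L * C := by positivity
    nlinarith
  · intro z
    have h1 := chordal_mob hh (h z) (φ₁ (h z))
    rw [h.symm_apply_apply] at h1
    refine h1.trans ?_
    have h2 : Kw * chordal (h z) (φ₁ (h z)) ≤ Kw * (C * L * (η * (1 + Real.log (1 / η)))) :=
      mul_le_mul_of_nonneg_left ((hφW (h z)).trans hCX) (by linarith)
    refine h2.trans ?_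
    have h3 : Kw * (C * L * (η * (1 + Real.log (1 / η)))) = 1 * L * Kw * C *
      (η * (1 + Real.log (1 / η))) := by ring
    rw [h3]
    refine mul_le_mul_of_nonneg_right ?_ hY0
    have : 0 ≤ L * Kw * C := by positivity
    nlinarith
  · intro z hz
    show sp (T x₁') (h.symm (φ₁ (h z))) = h.symm (φ₁ (h (sp v z)))
    rw [Homeomorph.eq_symm_apply, hTconj, h.apply_symm_apply, hconj _ hz, hSvc]
  · intro z hz
    show sp (T x₁') (h.symm (φ₁ (h z))) = h.symm (φ₁ (h (sp y z)))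
    rw [Homeomorph.eq_symm_apply, hTconj, h.apply_symm_apply, hconj2 _ hz, hSconj]
  · intro z hz
    obtain ⟨v', hv, hv2⟩ := hDm _ hz
    refine ⟨h.symm v', ?_, ?_⟩
    · show h (h.symm v') ∈ U0
      rwa [h.apply_symm_apply]
    · show h.symm (φ₁ (h (h.symm v'))) = sp (T x₁') (h.symm (φ₁ (h z)))
      rw [h.apply_symm_apply, hv2, Homeomorph.symm_apply_eq, hTconj, h.apply_symm_apply]
  · intro z hz
    exact hol_conj hh (hhol _ hz)

end Pool.Agent.Helper23U
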