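import Pool.Agent.Helper23U.CoefU

/-!
# The data of the surgery for all maps near a given map
-/

set_option autoImplicit false
set_option linter.unusedSectionVars false

open Set Filter Topology Metric
open scoped OnePoint

noncomputable section

namespace Pool.Agent.Helper23U

open Pool.Agent.H790R3.RB (CV hF ND sp pr hc pol HypTop Sink Attd PQ SP)
open Pool.Agent.Helper23S
open Pool.Agent.Helper23T

variable {d : ℕ}

/-- genericity from simple poles -/
theorem gen_of_simple {x : CV d} (hdeg : (pol x 1).natDegree = d) (hd : 1 ≤ d)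
    (hsim : ∀ ζ, (pol x 1).eval ζ = 0 → (Polynomial.derivative (pol x 1)).eval ζ ≠ 0) :
    ∃ (Z : Finset ℂ) (lc : ℂ), Gen x Z lc ∧ lc = (pol x 1).leadingCoeff := by
  classical
  set Q := pol x 1 with hQ
  have hQ0 : Q ≠ 0 := by
    intro h0
    rw [h0, Polynomial.natDegree_zero] at hdeg
    omega
  have hnd : Q.roots.Nodup := by
    refine Polynomial.nodup_roots ?_
    rw [Polynomial.separable_def]
    rw [Polynomial.isCoprime_iff_aeval_ne_zero_of_isAlgClosed ℂ ℂ]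
    intro a
    rw [Polynomial.coe_aeval_eq_eval]
    by_cases ha : Q.eval a = 0
    · exact Or.inr (hsim a ha)
    · exact Or.inl ha
  have hcr : Q.roots.card = Q.natDegree := (IsAlgClosed.splits Q).natDegree_eq_card_roots.symm
  have hcard : Q.roots.toFinset.card = d := by
    rw [Multiset.toFinset_card_of_nodup hnd, hcr, hdeg]
  refine ⟨Q.roots.toFinset, Q.leadingCoeff, ⟨hcard, Polynomial.leadingCoeff_ne_zero.2 hQ0, ?_, ?_⟩,
    rfl⟩
  · have h1 := Polynomial.C_leadingCoeff_mul_prod_multiset_X_sub_C hcr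
    conv_lhs => rw [← hQ, ← h1]
    congr 1
    rw [Finset.prod_eq_multiset_prod, Multiset.toFinset_val, hnd.dedup]
  · intro p hp
    rw [Multiset.mem_toFinset, Polynomial.mem_roots hQ0] at hp
    exact hsim p hp

/-- the value at infinity -/
theorem sp_inf_ne (x : CV d) (h : (pol x 1).coeff d ≠ 0) : sp x ∞ ≠ ∞ := by
  have h2 : sp x ∞ = pr (hF x (1, 0)) := rfl
  rw [h2, Pool.Agent.H790R3.RB.PQ.hF_inf, Pool.Agent.H790R3.RB.SP.pr_ne (by exact h)]
  exact OnePoint.coe_ne_infty _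

theorem coeff_of_inf {x : CV d} (h : sp x ∞ ≠ ∞) : (pol x 1).coeff d ≠ 0 := by
  intro h0
  apply h
  have h2 : sp x ∞ = pr (hF x (1, 0)) := rfl
  rw [h2, Pool.Agent.H790R3.RB.PQ.hF_inf]
  exact Pool.Agent.H790R3.RB.SP.pr_zero h0

theorem qd'_cont : Continuous (fun q : CV d × ℂ => (Polynomial.derivative (pol q.1 1)).eval q.2) := by
  have h1 : (fun q : CV d × ℂ => (Polynomial.derivative (pol q.1 1)).eval q.2) = fun q : CV d × ℂ =>
      fderiv ℂ (fun q : CV d × ℂ => (pol q.1 1).eval q.2) q (0, 1) := by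
    funext q
    have h4 : HasFDerivAt (fun q : CV d × ℂ => (pol q.1 1).eval q.2)
        (fderiv ℂ (fun q : CV d × ℂ => (pol q.1 1).eval q.2) (q.1, q.2)) (q.1, q.2) :=
      (((ev_contDiff 1).contDiffAt).differentiableAt (by simp)).hasFDerivAt
    have h5 : HasDerivAt (fun z : ℂ => ((q.1, z) : CV d × ℂ)) ((0, 1) : CV d × ℂ) q.2 :=
      (hasDerivAt_const q.2 q.1).prodMk (hasDerivAt_id q.2)
    have h6 := h4.comp_hasDerivAt q.2 h5
    have h7 : HasDerivAt (fun z => (pol q.1 1).eval z) _ q.2 := h6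
    rw [← h7.deriv, Polynomial.deriv]
  rw [h1]
  have h2 : Continuous (fderiv ℂ (fun q : CV d × ℂ => (pol q.1 1).eval q.2)) :=
    (ev_contDiff 1).continuous_fderiv (by simp)
  exact h2.clm_apply continuous_const

section

variable {x₀ : CV d} {U0 : Set (OnePoint ℂ)} {Z₀ : Finset ℂ} {χ : ℂ → ℝ} {a0 b0 ρ : ℝ} {lc₀ : ℂ}

/-- **the data for maps near `x₀`** -/
theorem data_near (D : Data x₀ U0 Z₀ χ a0 b0 ρ) (hg : Gen x₀ Z₀ lc₀) (hpf : ∀ p ∈ Z₀, ‖p‖ < ρ)
    (hE : ∀ z ∈ closure ((↑) '' {z : ℂ | 0 < χ z} : Set (OnePoint ℂ)), sp x₀ z ∈ U0) :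
    ∀ᶠ x in 𝓝 x₀, (∀ z ∈ closure U0, Attd (sp x) z) ∧ ∃ (Z : Finset ℂ) (lc : ℂ), Gen x Z lc ∧
      Data x U0 Z χ a0 b0 ρ ∧ (∀ p ∈ Z, ‖p‖ < ρ) ∧ lc = (pol x 1).leadingCoeff := by
  have hd1 : 1 ≤ d := by linarith [D.d2]
  have hspc₀ := Pool.Agent.H790R3.RB.SP.sp_cont D.nd
  have hatt : ∀ z ∈ closure U0, Attd (sp x₀) z := fun z hz =>
    attd_of_succ hspc₀ (D.at' _ (D.tr z hz))
  -- compact sets
  have hC1 : IsCompact {z : ℂ | (z : OnePoint ℂ) ∉ U0} := by
    refine Metric.isCompact_of_isClosed_isBounded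
      (D.Uo.preimage OnePoint.continuous_coe).isClosed_compl ?_
    refine (Metric.isBounded_ball (x := (0 : ℂ)) (r := ρ)).subset fun z hz => ?_
    rw [mem_ball_zero_iff]
    by_contra hc
    exact hz (D.far z (not_lt.1 hc))
  have hC2 : IsCompact (((↑) '' ball (0 : ℂ) ρ)ᶜ : Set (OnePoint ℂ)) :=
    (OnePoint.isOpenMap_coe _ isOpen_ball).isClosed_compl.isCompact
  have hSc : IsCompact {z : ℂ | a0 ≤ χ z ∧ χ z ≤ b0} := by
    have : {z : ℂ | a0 ≤ χ z ∧ χ z ≤ b0} = {z : ℂ | χ z ≤ b0} ∩ {z | a0 ≤ χ z} := by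
      ext z
      exact and_comm
    rw [this]
    exact D.comp.inter_right (isClosed_le continuous_const D.χs.continuous)
  -- the eventual properties
  have e1 := Pool.Agent.H790R3.RB.FAM.ND_open D.nd
  have e2 := ev_maps x₀ D.nd isClosed_closure.isCompact D.Uo D.tr
  have e3 := attd_near_compact hd1 D.nd isClosed_closure.isCompact hatt
  have e4 := ev_maps x₀ D.nd (isClosed_closure (s := ((↑) '' {z : ℂ | 0 < χ z} :
    Set (OnePoint ℂ)))).isCompact D.Uo hE
  have e5 : ∀ᶠ x in 𝓝 x₀, ∀ z ∈ {z : ℂ | (z : OnePoint ℂ) ∉ U0}, qd x z ≠ 0 := by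
    refine hC1.eventually_forall_of_forall_eventually (P := fun y z => qd y z ≠ 0) fun z hz => ?_
    refine qd_cont.continuousAt.eventually_ne (x := ((x₀, z) : CV d × ℂ)) ?_
    intro h0
    exact hz (D.ZU z ((D.Zr z).2 h0))
  have e6 : ∀ᶠ x in 𝓝 x₀, ∀ z ∈ (((↑) '' ball (0 : ℂ) ρ)ᶜ : Set (OnePoint ℂ)), sp x z ∈
      ({∞}ᶜ : Set (OnePoint ℂ)) := by
    refine ev_maps x₀ D.nd hC2 (isClosed_singleton).isOpen_compl fun z hz => ?_
    rw [mem_compl_iff, mem_singleton_iff]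
    induction z using OnePoint.rec with
    | infty =>
      refine sp_inf_ne x₀ ?_
      have h4 : (∏ p ∈ Z₀, (Polynomial.X - Polynomial.C p)).Monic :=
        Polynomial.monic_prod_of_monic _ _ fun p _ => Polynomial.monic_X_sub_C p
      have h5 : (∏ p ∈ Z₀, (Polynomial.X - Polynomial.C p)).natDegree = d := by
        rw [Polynomial.natDegree_prod_of_monic _ _ fun p _ => Polynomial.monic_X_sub_C p]
        simp [hg.card]
      have h6 := h4.coeff_natDegree
      rw [h5] at h6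
      rw [hg.Q, Polynomial.coeff_C_mul, h6, mul_one]
      exact hg.lc0
    | coe z =>
      have h1 : z ∉ Z₀ := fun hZ => hz ⟨z, mem_ball_zero_iff.2 (hpf z hZ), rfl⟩
      rw [sp_fin x₀ (fun h => h1 ((hg.root z).2 h))]
      exact OnePoint.coe_ne_infty _
  have e7 : ∀ᶠ x in 𝓝 x₀, ∀ z ∈ closedBall (0 : ℂ) ρ,
      (qd x z, (Polynomial.derivative (pol x 1)).eval z) ≠ ((0, 0) : ℂ × ℂ) := by
    refine (isCompact_closedBall (0 : ℂ) ρ).eventually_forall_of_forall_eventually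
      (P := fun x z => (qd x z, (Polynomial.derivative (pol x 1)).eval z) ≠ ((0, 0) : ℂ × ℂ))
      fun z _ => ?_
    have h1 : Continuous (fun q : CV d × ℂ =>
        (qd q.1 q.2, (Polynomial.derivative (pol q.1 1)).eval q.2)) := qd_cont.prodMk qd'_cont
    refine h1.continuousAt.eventually_ne (x := ((x₀, z) : CV d × ℂ)) ?_
    intro h0
    have h2 : qd x₀ z = 0 := congrArg Prod.fst h0
    have h3 : (Polynomial.derivative (pol x₀ 1)).eval z = 0 := congrArg Prod.snd h0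
    exact hg.simple z ((hg.root z).2 h2) h3
  have e8 : ∀ᶠ x in 𝓝 x₀, ∀ z ∈ {z : ℂ | a0 ≤ χ z ∧ χ z ≤ b0}, deriv (fp x) z ≠ 0 := by
    refine hSc.eventually_forall_of_forall_eventually (P := fun y z => deriv (fp y) z ≠ 0)
      fun z hz => ?_
    exact (deriv_cont (q := ((x₀, z) : CV d × ℂ)) (D.qd_ne hz.2)).eventually_ne (D.nc z hz.1 hz.2)
  filter_upwards [e1, e2, e3, e4, e5, e6, e7, e8] with x h1 h2 h3 h4 h5 h6 h7 h8
  refine ⟨h3, ?_⟩
  have hroot : ∀ z, qd x z = 0 → ‖z‖ < ρ := by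
    intro z hz
    by_contra hc
    refine h6 (z : OnePoint ℂ) ?_ (sp_pole x hz)
    rintro ⟨w, hw, hwz⟩
    rw [OnePoint.coe_injective hwz] at hw
    exact hc (mem_ball_zero_iff.1 hw)
  have hco : (pol x 1).coeff d ≠ 0 := by
    refine coeff_of_inf (h6 ∞ ?_)
    rintro ⟨w, -, hw⟩
    exact OnePoint.coe_ne_infty w hw
  have hdeg : (pol x 1).natDegree = d :=
    Polynomial.natDegree_eq_of_le_of_coeff_ne_zero
      (Pool.Agent.H790R3.RB.PQ.pol_natDegree x 1) hco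
  obtain ⟨Z, lc, hgx, hlc⟩ := gen_of_simple hdeg hd1 (fun ζ hζ h0 => by
    refine h7 ζ (mem_closedBall_zero_iff.2 (hroot ζ hζ).le) ?_
    rw [show qd x ζ = 0 from hζ, h0])
  refine ⟨Z, lc, hgx, ⟨D.d2, h1, D.Uo, D.inf, hgx.root, ?_, h2, fun z hz => h3 z (subset_closure hz),
    D.χs, D.χ1, ?_, D.apos, D.ab, D.b1, fun z hz1 hz2 => h8 z ⟨hz1, hz2⟩, D.ρ1, D.far⟩, ?_, hlc⟩
  · intro z hz
    by_contra hc
    exact h5 z hc ((hgx.root z).1 hz)
  · intro z hz
    exact h4 _ (subset_closure ⟨z, hz, rfl⟩)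
  · intro p hp
    exact hroot p ((hgx.root p).1 hp)

end

end Pool.Agent.Helper23U
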