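import Pool.Agent.Helper23U.Chord
import Pool.Agent.Helper23T.SeqM

/-!
# The normalised theorem, quantitative and locally uniform
-/

set_option autoImplicit false
set_option linter.unusedSectionVars false

open Set Filter Topology Metric
open scoped OnePoint

noncomputable section

namespace Pool.Agent.Helper23U

open Pool.Agent.H790R3.RB (CV hF ND sp pr hc pol HypTop Sink Attd PQ SP cr)
open Pool.Agent.Helper23S
open Pool.Agent.Helper23T

variable {d : ℕ}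

/-- uniform bounds on compact sets without poles -/
theorem fp_bounds (x₀ : CV d) {K : Set ℂ} (hK : IsCompact K) (hq : ∀ z ∈ K, qd x₀ z ≠ 0) :
    ∃ B : ℝ, 0 ≤ B ∧ ∀ᶠ x in 𝓝 x₀, ∀ z ∈ K, ‖fp x z‖ ≤ B ∧ ‖deriv (fp x) z‖ ≤ B := by
  have h1 : ContinuousOn (fp x₀) K := fun z hz =>
    (fp_diff (hq z hz)).continuousAt.continuousWithinAt
  have h2 : ContinuousOn (deriv (fp x₀)) K := by
    intro z hz
    have h2 : ContinuousAt (fun q : CV d × ℂ => deriv (fp q.1) q.2) (x₀, z) := deriv_cont (hq z hz)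
    have h3 : ContinuousAt (fun z => deriv (fp x₀) z) z :=
      ContinuousAt.comp (f := fun z : ℂ => ((x₀, z) : CV d × ℂ))
        (g := fun q : CV d × ℂ => deriv (fp q.1) q.2) h2
        (continuous_const.prodMk continuous_id).continuousAt
    exact h3.continuousWithinAt
  obtain ⟨B1, hB1⟩ := hK.exists_bound_of_continuousOn h1
  obtain ⟨B2, hB2⟩ := hK.exists_bound_of_continuousOn h2
  refine ⟨max 0 (max B1 B2) + 1, by positivity, ?_⟩
  filter_upwards [ev_close x₀ hK hq one_pos] with x hx z hz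
  obtain ⟨-, e1, e2⟩ := hx z hz
  have e3 := norm_sub_norm_le (fp x z) (fp x₀ z)
  have e4 := norm_sub_norm_le (deriv (fp x) z) (deriv (fp x₀) z)
  have e5 := hB1 z hz
  have e6 := hB2 z hz
  have e7 : B1 ≤ max 0 (max B1 B2) := (le_max_left _ _).trans (le_max_right _ _)
  have e8 : B2 ≤ max 0 (max B1 B2) := (le_max_right _ _).trans (le_max_right _ _)
  constructor <;> linarith

theorem lc_bound {x : CV d} : ‖(pol x 1).leadingCoeff‖ ≤ ‖x‖ := by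
  have h1 := Pool.Agent.H790R3.RB.PQ.pol_natDegree x 1
  have h2 : (pol x 1).leadingCoeff = x (1, ⟨(pol x 1).natDegree, by omega⟩) :=
    Pool.Agent.H790R3.RB.PQ.pol_coeff x 1 ⟨(pol x 1).natDegree, by omega⟩
  rw [h2]
  exact norm_le_pi_norm x _

section

variable {x₀ : CV d} {U0 : Set (OnePoint ℂ)} {Z₀ : Finset ℂ} {χ : ℂ → ℝ} {a0 b0 ρ : ℝ} {lc₀ : ℂ}

/-- **the normalised theorem** -/
theorem normU (D : Data x₀ U0 Z₀ χ a0 b0 ρ) (hg : Gen x₀ Z₀ lc₀) (hpf : ∀ p ∈ Z₀, ‖p‖ < ρ)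
    (hE : ∀ z ∈ closure ((↑) '' {z : ℂ | 0 < χ z} : Set (OnePoint ℂ)), sp x₀ z ∈ U0) :
    ∃ C η₀ : ℝ, 0 < C ∧ 0 < η₀ ∧ η₀ ≤ 1 ∧ ∃ N ∈ 𝓝 x₀, ∀ x ∈ N, ND x ∧
      (∀ z ∈ closure U0, sp x z ∈ U0) ∧ (∀ z ∈ closure U0, Attd (sp x) z) ∧
      (∀ z ∈ Dm χ a0, sp x z ∈ U0) ∧
      ∀ y, ND y → ∀ η : ℝ, 0 < η → η ≤ η₀ → ‖y - x‖ ≤ η →
        ∃ (φ : OnePoint ℂ ≃ₜ OnePoint ℂ) (x' : CV d), ND x' ∧ (HypTop (sp y) → HypTop (sp x')) ∧
          ‖x' - x‖ ≤ C * (η * (1 + Real.log (1 / η))) ∧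
          (∀ z, chordal z (φ z) ≤ C * (η * (1 + Real.log (1 / η)))) ∧
          (∀ z ∈ U0, sp x' (φ z) = φ (sp x z)) ∧ (∀ z ∉ Dm χ a0, sp x' (φ z) = φ (sp y z)) ∧
          (∀ z ∈ Dm χ a0, sp x' (φ z) ∈ φ '' U0) ∧ ∀ z ∈ U0, HolAt φ z := by
  have hρ1 := D.ρ1
  -- the annulus
  have hKc : IsCompact {z : ℂ | ρ ≤ ‖z‖ ∧ ‖z‖ ≤ 2 * ρ + 3} := by
    have e : {z : ℂ | ρ ≤ ‖z‖ ∧ ‖z‖ ≤ 2 * ρ + 3} = closedBall 0 (2 * ρ + 3) ∩ {z | ρ ≤ ‖z‖} := by
      ext z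
      rw [mem_inter_iff, mem_closedBall_zero_iff]
      exact and_comm
    rw [e]
    exact (isCompact_closedBall _ _).inter_right (isClosed_le continuous_const continuous_norm)
  obtain ⟨Bf, hBf, hBev⟩ := fp_bounds x₀ hKc fun z hz h0 =>
    absurd (hpf z ((hg.root z).2 h0)) (not_lt.2 hz.1)
  obtain ⟨B₁, κ₀, hB₁, hκ₀, hκ₀1, N1, hN1, hcut⟩ := cutU D
  set M : ℝ := 4 * ρ + 6 + Bf with hM
  have hM0 : 0 ≤ M := by linarith
  obtain ⟨C1, hC1, hph⟩ := ph_close hρ1 hM0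
  obtain ⟨r, hr, hrN⟩ := Metric.mem_nhds_iff.1 hN1
  set B' : ℝ := max B₁ 1 with hB'
  have hB'1 : 1 ≤ B' := le_max_right _ _
  have hB'B : B₁ ≤ B' := le_max_left _ _
  set Lc : ℝ := ‖x₀‖ + 1 with hLc
  have hLc0 : 0 < Lc := by have := norm_nonneg x₀; linarith
  set E : ℝ := Lc * ((3 * ρ + 3) ^ d * (1 + Bf + Bf * d + d)) with hE'
  have hd0 : (0 : ℝ) ≤ d := Nat.cast_nonneg _
  have hE0 : 0 < E := by positivity
  set C : ℝ := (E + 1) * (C1 * B') + 6 * B' with hC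
  have hC0 : 0 < C := by positivity
  set η₀ : ℝ := min (min (κ₀ / B') (1 / (3 * C1) ^ 2 / B')) (min (r / 2) 1) with hη₀
  have hη₀0 : 0 < η₀ := by
    have h1 : 0 < κ₀ / B' := by positivity
    have h2 : 0 < 1 / (3 * C1) ^ 2 / B' := by positivity
    exact lt_min (lt_min h1 h2) (lt_min (by linarith) one_pos)
  refine ⟨C, η₀, hC0, hη₀0, (min_le_right _ _).trans (min_le_right _ _), ball x₀ (min (r / 2) 1) ∩
    {x | (∀ z ∈ {z : ℂ | ρ ≤ ‖z‖ ∧ ‖z‖ ≤ 2 * ρ + 3}, ‖fp x z‖ ≤ Bf ∧ ‖deriv (fp x) z‖ ≤ Bf) ∧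
      ((∀ z ∈ closure U0, Attd (sp x) z) ∧ ∃ (Z : Finset ℂ) (lc : ℂ), Gen x Z lc ∧
      Data x U0 Z χ a0 b0 ρ ∧ (∀ p ∈ Z, ‖p‖ < ρ) ∧ lc = (pol x 1).leadingCoeff)},
    inter_mem (ball_mem_nhds _ (lt_min (by linarith) one_pos))
      (hBev.and (data_near D hg hpf hE)), ?_⟩
  rintro x ⟨hxr, hxB, hxA, Z, lc, hgx, Dx, hpfx, hlc⟩
  rw [mem_ball, dist_eq_norm] at hxr
  refine ⟨Dx.nd, Dx.tr, hxA, Dx.spD, fun y hynd η hη0 hηle hyx => ?_⟩
  have e1 : η ≤ κ₀ / B' := hηle.trans ((min_le_left _ _).trans (min_le_left _ _))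
  have e2 : η ≤ 1 / (3 * C1) ^ 2 / B' := hηle.trans ((min_le_left _ _).trans (min_le_right _ _))
  have e3 : η ≤ r / 2 := hηle.trans ((min_le_right _ _).trans (min_le_left _ _))
  have e4 : η ≤ 1 := hηle.trans ((min_le_right _ _).trans (min_le_right _ _))
  have hB'0 : 0 < B' := by linarith
  set κ : ℝ := B' * η with hκ
  have hκ0 : 0 < κ := by positivity
  have hκκ : κ ≤ κ₀ := by
    rw [le_div_iff₀ hB'0] at e1
    rw [hκ]
    linarith
  have hκ1 : κ ≤ 1 / 40 := hκκ.trans hκ₀1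
  have hκC : κ ≤ 1 / (3 * C1) ^ 2 := by
    rw [le_div_iff₀ hB'0] at e2
    rw [hκ]
    linarith
  have hηκ : η ≤ κ := by
    rw [hκ]
    nlinarith
  have hyN : y ∈ N1 := by
    apply hrN
    rw [mem_ball, dist_eq_norm]
    have h1 : y - x₀ = (y - x) + (x - x₀) := by abel
    rw [h1]
    refine (norm_add_le _ _).trans_lt ?_
    have := hxr.trans_le (min_le_left _ _)
    linarith
  have hxN : x ∈ N1 := by
    apply hrN
    rw [mem_ball, dist_eq_norm]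
    have := hxr.trans_le (min_le_left _ _)
    linarith
  have hcutC := hcut x hxN Z Dx y hyN hynd κ hκ0 hκκ (by
    rw [hκ]
    exact mul_le_mul hB'B hyx (norm_nonneg _) hB'0.le)
  set ε : ℝ := C1 * (κ * (1 + Real.log (1 / κ))) with hε
  have hlogκ : 0 ≤ Real.log (1 / κ) := Real.log_nonneg (by rw [le_div_iff₀ hκ0]; linarith)
  have hε0 : 0 ≤ ε := by positivity
  have hε1 : ε ≤ 1 := by
    have h1 := log_sqrt_bound hκ0
    have h2 : Real.sqrt κ ≤ 1 / (3 * C1) := by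
      rw [Real.sqrt_le_left (by positivity)]
      calc κ ≤ 1 / (3 * C1) ^ 2 := hκC
        _ = _ := by rw [div_pow, one_pow]
    calc ε ≤ C1 * (3 * Real.sqrt κ) := mul_le_mul_of_nonneg_left h1 hC1.le
      _ ≤ C1 * (3 * (1 / (3 * C1))) := by gcongr
      _ = 1 := by field_simp
  obtain ⟨Φ, x', P', f1, f2, f3, f4, f5, f6, f7, f8, f9, f10⟩ := stepU Dx hgx hpfx hκ0 hκ1
    (ε := ε) (M := M) (fun L hL1 hL2 μ hμ z hz =>
      hph κ L μ hκ0 hκ1 (by linarith) (by linarith) hμ z hz) hynd hcutC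
  -- the logarithms
  have hlog : Real.log (1 / κ) ≤ Real.log (1 / η) :=
    Real.log_le_log (by positivity) (one_div_le_one_div_of_le hη0 hηκ)
  have hlogη : 0 ≤ Real.log (1 / η) := hlogκ.trans hlog
  have hεη : ε ≤ C1 * B' * (η * (1 + Real.log (1 / η))) := by
    have h1 : κ * (1 + Real.log (1 / κ)) ≤ κ * (1 + Real.log (1 / η)) :=
      mul_le_mul_of_nonneg_left (by linarith) hκ0.le
    calc ε ≤ C1 * (κ * (1 + Real.log (1 / η))) := mul_le_mul_of_nonneg_left h1 hC1.le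
      _ = _ := by rw [hκ]; ring
  have hX0 : 0 ≤ η * (1 + Real.log (1 / η)) := by positivity
  have hηX : η ≤ η * (1 + Real.log (1 / η)) := by nlinarith
  have hlcx : ‖lc‖ ≤ Lc := by
    rw [hlc]
    refine lc_bound.trans ?_
    have h1 := norm_sub_norm_le x x₀
    have h2 := hxr.trans_le (min_le_right _ _)
    rw [hLc]
    linarith
  have hcoef := coefU hgx hρ1 hpfx D.far hκ0.le hκ1 hε0 hε1 hBf hBf hlcx (M := M) le_rfl
    (fun z hz1 hz2 => (hxB z ⟨hz1, hz2⟩).1) (fun z hz1 hz2 => (hxB z ⟨hz1, hz2⟩).2) f3 f4 f8 f9 f10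
  rw [← hE'] at hcoef
  refine ⟨Φ.onePointCongr, x', f1, f2, ?_, fun z => ?_, f5.1, f5.2.1, f5.2.2, fun z hz =>
    hol_ext D.Uo f6 D.far hz⟩
  · refine hcoef.trans ?_
    have h1 : E * ε ≤ E * (C1 * B' * (η * (1 + Real.log (1 / η)))) :=
      mul_le_mul_of_nonneg_left hεη hE0.le
    have h2 : 0 ≤ C1 * B' * (η * (1 + Real.log (1 / η))) := by positivity
    have h3 : 0 ≤ 6 * B' * (η * (1 + Real.log (1 / η))) := by positivity
    have h4 : C * (η * (1 + Real.log (1 / η))) = E * (C1 * B' * (η * (1 + Real.log (1 / η)))) +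
        C1 * B' * (η * (1 + Real.log (1 / η))) + 6 * B' * (η * (1 + Real.log (1 / η))) := by
      rw [hC]
      ring
    rw [h4]
    linarith
  · refine (chordal_plane hκ0.le hε0 (by linarith) f3 f4 z).trans ?_
    have h1 : 0 ≤ E * (C1 * B' * (η * (1 + Real.log (1 / η)))) := by positivity
    have h2 : 6 * κ ≤ 6 * B' * (η * (1 + Real.log (1 / η))) := by
      rw [hκ]
      nlinarith
    have h4 : C * (η * (1 + Real.log (1 / η))) = E * (C1 * B' * (η * (1 + Real.log (1 / η)))) +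
        C1 * B' * (η * (1 + Real.log (1 / η))) + 6 * B' * (η * (1 + Real.log (1 / η))) := by
      rw [hC]
      ring
    rw [h4]
    linarith

end

end Pool.Agent.Helper23U
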