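import Pool.Agent.Helper23U.Eh
import Pool.Agent.Helper23T.Top
import Pool.Agent.Helper23T.CloM
import Pool.Agent.Helper23T.MoebM

/-!
# Persistence of attraction
-/

set_option autoImplicit false
set_option linter.unusedSectionVars false

open Set Filter Topology Metric
open scoped OnePoint

noncomputable section

namespace Pool.Agent.Helper23U

open Pool.Agent.H790R3.RB (CV hF ND sp pr hc pol HypTop Sink Attd PQ SP)
open Pool.Agent.Helper23T

variable {d : ℕ}

/-- joint continuity of the iterates -/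
theorem it_joint {x : CV d} (hx : ND x) (N : ℕ) (z : OnePoint ℂ) :
    Tendsto (fun p : CV d × OnePoint ℂ => (sp p.1)^[N] p.2) (𝓝 (x, z)) (𝓝 ((sp x)^[N] z)) := by
  induction N with
  | zero => exact continuous_snd.tendsto (x, z)
  | succ N ih =>
    have h1 : Tendsto (fun p : CV d × OnePoint ℂ => (p.1, (sp p.1)^[N] p.2)) (𝓝 (x, z))
        (𝓝 (x, (sp x)^[N] z)) :=
      Tendsto.prodMk_nhds (continuous_fst.tendsto (x, z)) ih
    have h2 := (sp_joint x hx ((sp x)^[N] z)).comp h1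
    have e1 : (sp x)^[N + 1] z = sp x ((sp x)^[N] z) := Function.iterate_succ_apply' _ _ _
    have e2 : (fun p : CV d × OnePoint ℂ => (sp p.1)^[N + 1] p.2) =
        (fun p : CV d × OnePoint ℂ => sp p.1 p.2) ∘ fun p => (p.1, (sp p.1)^[N] p.2) := by
      funext p
      exact Function.iterate_succ_apply' _ _ _
    rw [e1, e2]
    exact h2

theorem it_maps {x : CV d} (hx : ND x) (N : ℕ) {C O : Set (OnePoint ℂ)} (hC : IsCompact C)
    (hO : IsOpen O) (h : ∀ z ∈ C, (sp x)^[N] z ∈ O) : ∀ᶠ y in 𝓝 x, ∀ z ∈ C, (sp y)^[N] z ∈ O :=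
  hC.eventually_forall_of_forall_eventually (P := fun y z => (sp y)^[N] z ∈ O) fun z hz =>
    (it_joint hx N z).eventually (hO.mem_nhds (h z hz))

/-- the finite part of an iterate is holomorphic -/
theorem it_diff {x : CV d} (hd : 1 ≤ d) (hx : ND x) (N : ℕ) :
    ∃ G : ℂ → ℂ, ∀ z w : ℂ, (sp x)^[N] (z : OnePoint ℂ) = (w : OnePoint ℂ) →
      G z = w ∧ DifferentiableAt ℂ G z := by
  have hit := (SP d x hd hx).2.1
  have hsm : Differentiable ℂ (fun z : ℂ => (hF x)^[N] (z, 1)) := by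
    have h1 : Differentiable ℂ (fun q : ℂ × ℂ => hF x q) :=
      ((Pool.Agent.H790R3.RB.hF_contDiff d 1).comp
        (contDiff_const.prodMk contDiff_id)).differentiable one_ne_zero
    have h2 : Differentiable ℂ ((hF x)^[N]) := h1.iterate N
    exact h2.comp (differentiable_id.prodMk (differentiable_const 1))
  refine ⟨fun z => ((hF x)^[N] (z, 1)).1 / ((hF x)^[N] (z, 1)).2, fun z w h => ?_⟩
  have hne : ((z, 1) : ℂ × ℂ) ≠ 0 := fun h => one_ne_zero (congrArg Prod.snd h)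
  have e1 : pr ((z, 1) : ℂ × ℂ) = (z : OnePoint ℂ) := by
    rw [Pool.Agent.H790R3.RB.SP.pr_ne (by simp)]
    simp
  have h1 := hit (z, 1) hne N
  rw [e1, h] at h1
  have h2 : ((hF x)^[N] (z, 1)).2 ≠ 0 := by
    intro h0
    rw [Pool.Agent.H790R3.RB.SP.pr_zero h0] at h1
    exact OnePoint.coe_ne_infty _ h1
  rw [Pool.Agent.H790R3.RB.SP.pr_ne h2] at h1
  refine ⟨(OnePoint.coe_injective h1).symm, ?_⟩
  exact ((differentiable_fst.comp hsm) z).div ((differentiable_snd.comp hsm) z) h2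

/-- a neighbourhood of a finite sink is attracted, for all close maps -/
theorem sink_near (hd : 1 ≤ d) {x₀ : CV d} (hx₀ : ND x₀) {n : ℕ} {a : ℂ}
    (h : Sink (sp x₀) n (a : OnePoint ℂ)) : ∃ O : Set (OnePoint ℂ), IsOpen O ∧
      (a : OnePoint ℂ) ∈ O ∧ ∀ᶠ x in 𝓝 x₀, ∀ z ∈ O, Attd (sp x) z := by
  obtain ⟨hn, hfix, U, hU, hUV⟩ := h
  have hU' : (fun z : ℂ => (z : OnePoint ℂ)) ⁻¹' U ∈ 𝓝 a :=
    OnePoint.continuous_coe.continuousAt.preimage_mem_nhds hU
  obtain ⟨r, hr, hrU⟩ := Metric.nhds_basis_closedBall.mem_iff.1 hU'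
  set V : Set (OnePoint ℂ) := (↑) '' ball a (r / 2) with hV
  have hVo : IsOpen V := OnePoint.isOpenMap_coe _ isOpen_ball
  have hVa : V ∈ 𝓝 (a : OnePoint ℂ) := hVo.mem_nhds ⟨a, mem_ball_self (by linarith), rfl⟩
  obtain ⟨K, hK⟩ := eventually_atTop.1 (hUV V hVa)
  set N := n * (K + 1) with hN
  have hN0 : 0 < N := by positivity
  have hC : IsCompact ((↑) '' closedBall a r : Set (OnePoint ℂ)) :=
    (isCompact_closedBall a r).image OnePoint.continuous_coe
  have h0 : ∀ z ∈ ((↑) '' closedBall a r : Set (OnePoint ℂ)), (sp x₀)^[N] z ∈ V := by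
    rintro _ ⟨z, hz, rfl⟩
    exact hK (K + 1) (by omega) _ (hrU hz)
  refine ⟨(↑) '' ball a r, OnePoint.isOpenMap_coe _ isOpen_ball, ⟨a, mem_ball_self hr, rfl⟩, ?_⟩
  filter_upwards [it_maps hx₀ N hC hVo h0, Pool.Agent.H790R3.RB.FAM.ND_open hx₀] with x hx hxnd
  obtain ⟨G, hG⟩ := it_diff hd hxnd N
  have hmap : ∀ z ∈ closedBall a r, (sp x)^[N] (z : OnePoint ℂ) = (G z : ℂ) ∧
      G z ∈ closedBall a (1 / 2 * r) ∧ DifferentiableAt ℂ G z := by
    intro z hz
    obtain ⟨w, hw, hw2⟩ := hx _ ⟨z, hz, rfl⟩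
    obtain ⟨e1, e2⟩ := hG z w hw2.symm
    refine ⟨by rw [← hw2, e1], ?_, e2⟩
    rw [e1]
    have h3 : ball a (r / 2) ⊆ closedBall a (1 / 2 * r) := by
      rw [show 1 / 2 * r = r / 2 by ring]
      exact ball_subset_closedBall
    exact h3 hw
  obtain ⟨b, hb, hGb, hlim⟩ := eh (G := G) (κ := a) (ρ := r) (q := 1 / 2)
    (fun z hz => (hmap z hz).2.2) hr (by norm_num) (by norm_num) fun z hz => (hmap z hz).2.1
  have hself : MapsTo G (closedBall a r) (closedBall a r) :=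
    maps_closed hr (by norm_num) fun z hz => (hmap z hz).2.1
  have hit : ∀ (k : ℕ), ∀ z ∈ closedBall a r, (sp x)^[N * k] (z : OnePoint ℂ) = (G^[k] z : ℂ) := by
    intro k
    induction k with
    | zero => intro z _; rfl
    | succ k ih =>
      intro z hz
      rw [mul_add, mul_one, add_comm, Function.iterate_add_apply, ih z hz,
        Function.iterate_succ_apply']
      exact (hmap _ (hself.iterate k hz)).1
  have hbr : b ∈ ball a r := by
    rw [mem_closedBall] at hb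
    rw [mem_ball]
    linarith
  have huni : ∀ W ∈ 𝓝 (b : OnePoint ℂ), ∀ᶠ k : ℕ in atTop,
      ∀ w ∈ ((↑) '' ball a r : Set (OnePoint ℂ)), (sp x)^[N * k] w ∈ W := by
    intro W hW
    have hW' : (fun z : ℂ => (z : OnePoint ℂ)) ⁻¹' W ∈ 𝓝 b :=
      OnePoint.continuous_coe.continuousAt.preimage_mem_nhds hW
    obtain ⟨ε, hε, hεW⟩ := Metric.mem_nhds_iff.1 hW'
    filter_upwards [hlim ε hε] with k hk
    rintro _ ⟨w, hw, rfl⟩
    rw [hit k w (ball_subset_closedBall hw)]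
    apply hεW
    rw [mem_ball, dist_eq_norm]
    exact hk w (ball_subset_closedBall hw)
  have hsink : Sink (sp x) N (b : OnePoint ℂ) := by
    refine ⟨hN0, ?_, _, (OnePoint.isOpenMap_coe _ isOpen_ball).mem_nhds ⟨b, hbr, rfl⟩, huni⟩
    rw [(hmap b (ball_subset_closedBall hbr)).1, hGb]
  intro z hz
  refine ⟨N, b, hsink, ?_⟩
  rw [tendsto_def]
  intro W hW
  filter_upwards [huni W hW] with k hk
  exact hk z hz

/-- transfer of attraction by a conjugacy -/
theorem attd_conj {f g : OnePoint ℂ → OnePoint ℂ} (h : OnePoint ℂ ≃ₜ OnePoint ℂ)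
    (hc : ∀ z, h (f z) = g (h z)) {z : OnePoint ℂ} (hz : Attd f z) : Attd g (h z) := by
  have hit : ∀ (k : ℕ) (z : OnePoint ℂ), g^[k] (h z) = h (f^[k] z) := by
    intro k
    induction k with
    | zero => intro z; rfl
    | succ k ih =>
      intro z
      rw [Function.iterate_succ_apply', Function.iterate_succ_apply', ih, hc]
  obtain ⟨n, a, ⟨hn, hfix, U, hU, hUV⟩, ht⟩ := hz
  refine ⟨n, h a, ⟨hn, by rw [hit, hfix], h '' U, h.isOpenMap.image_mem_nhds hU, fun V hV => ?_⟩, ?_⟩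
  · have h1 : h ⁻¹' V ∈ 𝓝 a := h.continuous.continuousAt.preimage_mem_nhds hV
    filter_upwards [hUV _ h1] with k hk
    rintro _ ⟨u, hu, rfl⟩
    rw [hit]
    exact hk u hu
  · have h1 := (h.continuous.tendsto a).comp ht
    refine h1.congr fun k => ?_
    rw [hit]
    rfl

theorem sink_conj {f g : OnePoint ℂ → OnePoint ℂ} (h : OnePoint ℂ ≃ₜ OnePoint ℂ)
    (hc : ∀ z, h (f z) = g (h z)) {n : ℕ} {a : OnePoint ℂ} (hz : Sink f n a) : Sink g n (h a) := by
  have hit : ∀ (k : ℕ) (z : OnePoint ℂ), g^[k] (h z) = h (f^[k] z) := by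
    intro k
    induction k with
    | zero => intro z; rfl
    | succ k ih =>
      intro z
      rw [Function.iterate_succ_apply', Function.iterate_succ_apply', ih, hc]
  obtain ⟨hn, hfix, U, hU, hUV⟩ := hz
  refine ⟨hn, by rw [hit, hfix], h '' U, h.isOpenMap.image_mem_nhds hU, fun V hV => ?_⟩
  have h1 : h ⁻¹' V ∈ 𝓝 a := h.continuous.continuousAt.preimage_mem_nhds hV
  filter_upwards [hUV _ h1] with k hk
  rintro _ ⟨u, hu, rfl⟩
  rw [hit]
  exact hk u hu

/-- a neighbourhood of a sink is attracted, for all close maps -/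
theorem sink_near' (hd : 1 ≤ d) {x₀ : CV d} (hx₀ : ND x₀) {n : ℕ} {a : OnePoint ℂ}
    (h : Sink (sp x₀) n a) : ∃ O : Set (OnePoint ℂ), IsOpen O ∧
      a ∈ O ∧ ∀ᶠ x in 𝓝 x₀, ∀ z ∈ O, Attd (sp x) z := by
  induction a using OnePoint.rec with
  | coe a => exact sink_near hd hx₀ h
  | infty =>
    obtain ⟨m, S, T, hh, hSc, hTc, hSF, hTS, hS, hT⟩ := mob (d := d) hd 0
    obtain ⟨hSx, hSxc⟩ := hS x₀ hx₀
    have hinf : m ∞ = ((0 : ℂ) : OnePoint ℂ) := by
      have h1 : ((1, 0) : ℂ × ℂ) ≠ 0 := fun h => one_ne_zero (congrArg Prod.fst h)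
      have h2 := hh (1, 0) h1
      rw [Pool.Agent.H790R3.RB.SP.pr_zero rfl] at h2
      rw [h2]
      have h3 : Pool.Agent.W440.RE.GENM.mm (0 : ℂ) (1, 0) = (0, 1) := by
        unfold Pool.Agent.W440.RE.GENM.mm
        ext <;> simp
      rw [h3, Pool.Agent.H790R3.RB.SP.pr_ne (by simp)]
      simp
    have h1 : Sink (sp (S x₀)) n (m ∞) := sink_conj m hSxc h
    rw [hinf] at h1
    obtain ⟨O, hO, h0, hev⟩ := sink_near hd hSx h1
    refine ⟨m ⁻¹' O, hO.preimage m.continuous, by show m ∞ ∈ O; rwa [hinf], ?_⟩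
    filter_upwards [hSc.continuousAt.eventually hev, Pool.Agent.H790R3.RB.FAM.ND_open hx₀]
      with x hx hxnd z hz
    have h2 := hx (m z) hz
    have h3 := attd_conj m.symm (g := sp x) (fun z => by
      rw [Homeomorph.symm_apply_eq, (hS x hxnd).2, m.apply_symm_apply]) h2
    rwa [m.symm_apply_apply] at h3

/-- **persistence of attraction** -/
theorem attd_near (hd : 1 ≤ d) {x₀ : CV d} (hx₀ : ND x₀) {z : OnePoint ℂ}
    (hz : Attd (sp x₀) z) : ∀ᶠ p : CV d × OnePoint ℂ in 𝓝 (x₀, z), Attd (sp p.1) p.2 := by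
  obtain ⟨n, a, hs, ht⟩ := hz
  obtain ⟨O, hO, haO, hev⟩ := sink_near' hd hx₀ hs
  obtain ⟨k, hk⟩ := (ht.eventually (hO.mem_nhds haO)).exists
  have h1 := (it_joint hx₀ (n * k) z).eventually (hO.mem_nhds hk)
  have h2 : ∀ᶠ p : CV d × OnePoint ℂ in 𝓝 (x₀, z), (∀ w ∈ O, Attd (sp p.1) w) ∧ ND p.1 := by
    have h4 : Tendsto (fun p : CV d × OnePoint ℂ => p.1) (𝓝 (x₀, z)) (𝓝 x₀) :=
      continuous_fst.tendsto (x₀, z)
    exact h4.eventually (hev.and (Pool.Agent.H790R3.RB.FAM.ND_open hx₀))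
  filter_upwards [h1, h2] with p hp1 hp2
  exact attd_of_iter (Pool.Agent.H790R3.RB.SP.sp_cont hp2.2) _ (hp2.1 _ hp1)

theorem attd_near_compact (hd : 1 ≤ d) {x₀ : CV d} (hx₀ : ND x₀) {C : Set (OnePoint ℂ)}
    (hC : IsCompact C) (hz : ∀ z ∈ C, Attd (sp x₀) z) : ∀ᶠ x in 𝓝 x₀, ∀ z ∈ C, Attd (sp x) z :=
  hC.eventually_forall_of_forall_eventually (P := fun y z => Attd (sp y) z) fun z hz' =>
    attd_near hd hx₀ (hz z hz')

end Pool.Agent.Helper23U
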