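import Pool.Agent.Helper23U.CutU
import Pool.Agent.Helper23T.StepM

/-!
# One step of the construction, quantitative form
-/

set_option autoImplicit false
set_option linter.unusedSectionVars false

open Set Filter Topology Metric
open scoped OnePoint

noncomputable section

namespace Pool.Agent.Helper23U

open Pool.Agent.H790R3.RB (CV hF ND sp pr hc pol HypTop Sink Attd PQ SP)
open Pool.Agent.Split938 (dbar)
open Pool.Agent.Helper23S
open Pool.Agent.Helper23T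

variable {d : ℕ}

section

variable {x : CV d} {U0 : Set (OnePoint ℂ)} {Z : Finset ℂ} {χ : ℂ → ℝ} {a0 b0 ρ : ℝ} {lc : ℂ}

/-- **One step**, quantitative form. -/
theorem stepU (D : Data x U0 Z χ a0 b0 ρ) (hg : Gen x Z lc) (hpf : ∀ p ∈ Z, ‖p‖ < ρ)
    {κ ε M : ℝ} (hκ0 : 0 < κ) (hκ1 : κ ≤ 1 / 40)
    (hcl : ∀ L, 20 * ρ ≤ L → 4 * M + 24 * ρ ≤ L → ∀ μ, Adm ρ κ μ → ∀ z, ‖z‖ ≤ M →
      ‖ph ρ L μ z - z‖ ≤ ε) {y : CV d} (hynd : ND y) (hy : CutC x U0 Z χ a0 b0 ρ κ y) :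
    ∃ (Φ : ℂ ≃ₜ ℂ) (x' : CV d) (P' : Polynomial ℂ), ND x' ∧ (HypTop (sp y) → HypTop (sp x')) ∧
      (∀ z, ‖z‖ ≤ M → ‖Φ z - z‖ ≤ ε) ∧ (∀ z, 2 * ρ ≤ ‖z‖ → ‖Φ z - z‖ ≤ 6 * κ * ‖z‖) ∧
      ((∀ z ∈ U0, sp x' (Φ.onePointCongr z) = Φ.onePointCongr (sp x z)) ∧
        (∀ z ∉ Dm χ a0, sp x' (Φ.onePointCongr z) = Φ.onePointCongr (sp y z)) ∧
        ∀ z ∈ Dm χ a0, sp x' (Φ.onePointCongr z) ∈ Φ.onePointCongr '' U0) ∧
      DifferentiableOn ℂ Φ {z : ℂ | (z : OnePoint ℂ) ∈ U0} ∧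
      P'.natDegree ≤ d ∧ pol x' 0 = Polynomial.C lc * P' ∧
      pol x' 1 = Polynomial.C lc * ∏ p ∈ Z, (Polynomial.X - Polynomial.C (Φ p)) ∧
      ∀ z : ℂ, (z : OnePoint ℂ) ∈ U0 → z ∉ Z →
        P'.eval (Φ z) = Φ (fp x z) * ∏ p ∈ Z, (Φ z - Φ p) := by
  classical
  have hρ1 := D.ρ1
  have hρ0 : 0 < ρ := by linarith
  obtain ⟨hy2, a, b, ha, hab, hb, hqm, hGU, hGH, hGDm⟩ := hy
  set u := itq χ a b (fp x) (fp y) with hu
  set G := Gm x Z u with hG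
  obtain ⟨Φ, h1, h2, h3, h4, h5, h6⟩ := limit_homeo (ε := ε) (M := M) hρ1 hκ0.le hκ1
    (pbm_adm hqm) (pbm_ev hqm) (fun L hL1 hL2 μ hμ z hz =>
      hcl L hL1 hL2 μ hμ z hz)
  -- elementary properties
  have hb1 := D.b1
  have huU : ∀ z : ℂ, (z : OnePoint ℂ) ∈ U0 → u z = fp x z := by
    intro z hz
    exact itq_out hab (by rw [D.χ1 z hz]; linarith)
  have hqx : ∀ z, z ∉ Z → qd x z ≠ 0 := fun z hz h => hz ((D.Zr z).2 h)
  -- the conjugate is rational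
  have hhol : ∀ z ∉ Z, DifferentiableAt ℂ (fun w => Φ (u (Φ.symm w))) (Φ z) := by
    intro z hz
    refine h5 u {z | z ∉ Z} ?_ (fun z hz => (hqm.sm z hz).differentiableAt (by simp))
      (fun K z hz => pbm_rel hqm K hz) z hz
    exact Z.finite_toSet.isClosed.isOpen_compl
  obtain ⟨B, hB⟩ := fp_bdd D hg hpf
  have hVn : ∀ p ∈ Z, ∀ᶠ z : ℂ in 𝓝 p, u z = fp x z := by
    intro p hp
    filter_upwards [hqm.Vopen.mem_nhds (hqm.ZV p hp)] with z hz
    exact huU z hz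
  obtain ⟨P', hP1, hP2, hP3⟩ := rat (Z := Z) (u := u) hρ1 Φ hhol h3 h4 (B := B)
    (fun z hz => by rw [huU z (D.far z hz)]; exact hB z hz)
    (fun z hz hZ => absurd (hpf z hZ) (not_lt.2 hz))
    (fun p hp => by
      refine (fp_pole D hg hp).1.congr' ?_
      filter_upwards [mem_nhdsWithin_of_mem_nhds (hVn p hp)] with z hz
      rw [show u z = fp x z from hz])
    (fun p hp => by
      obtain ⟨O, hO, hinj⟩ := (fp_pole D hg hp).2
      refine ⟨O ∩ {z | u z = fp x z}, inter_mem hO (hVn p hp), ?_⟩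
      rintro z ⟨⟨hz1, hz2⟩, hz3⟩ w ⟨⟨hw1, hw2⟩, hw3⟩ hzw
      rw [show u z = fp x z from hz2, show u w = fp x w from hw2] at hzw
      exact hinj ⟨hz1, hz3⟩ ⟨hw1, hw3⟩ hzw)
  -- the coefficients
  set Q' : Polynomial ℂ := Polynomial.C lc * ∏ p ∈ Z, (Polynomial.X - Polynomial.C (Φ p)) with hQ'
  set P'' : Polynomial ℂ := Polynomial.C lc * P' with hP''
  have hQe : ∀ w, Q'.eval w = lc * ∏ p ∈ Z, (w - Φ p) := by
    intro w
    rw [hQ', Polynomial.eval_mul, Polynomial.eval_C, Polynomial.eval_prod]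
    simp
  have hQ0 : ∀ z, Q'.eval (Φ z) = 0 ↔ z ∈ Z := by
    intro z
    rw [hQe]
    simp only [mul_eq_zero, hg.lc0, false_or, Finset.prod_eq_zero_iff, sub_eq_zero]
    constructor
    · rintro ⟨p, hp, hpz⟩
      rwa [Φ.injective hpz]
    · intro hz
      exact ⟨z, hz, rfl⟩
  have hQdeg : Q'.natDegree = d := by
    rw [hQ', Polynomial.natDegree_C_mul hg.lc0,
      Polynomial.natDegree_prod_of_monic _ _ fun p _ => Polynomial.monic_X_sub_C (Φ p)]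
    simp [hg.card]
  have hPdeg : P''.natDegree ≤ d := by
    rw [hP'', Polynomial.natDegree_C_mul hg.lc0, ← hg.card]
    exact hP1
  have hcop : IsCoprime P'' Q' := by
    rw [Polynomial.isCoprime_iff_aeval_ne_zero_of_isAlgClosed ℂ ℂ]
    intro w
    rw [Polynomial.coe_aeval_eq_eval]
    obtain ⟨z, rfl⟩ := Φ.surjective w
    by_cases hz : z ∈ Z
    · left
      rw [hP'', Polynomial.eval_mul, Polynomial.eval_C]
      exact mul_ne_zero hg.lc0 (hP3 z hz)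
    · right
      rw [Ne, hQ0]
      exact hz
  have hd1 : 1 ≤ d := by linarith [D.d2]
  obtain ⟨x', hx', hx0, hx1, hxu⟩ := (PQ SP d hd1).2 P'' Q' hcop (by rw [hQdeg]; omega)
  -- the conjugate on the sphere
  set φ : OnePoint ℂ ≃ₜ OnePoint ℂ := Φ.onePointCongr with hφ
  have hφc : ∀ z : ℂ, φ z = (Φ z : ℂ) := fun z => rfl
  have hsp : (fun w => φ (G (φ.symm w))) = sp x' := by
    apply hxu
    · exact φ.continuous.comp (hqm.cont.comp φ.symm.continuous)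
    · intro w hw
      obtain ⟨z, rfl⟩ := Φ.surjective w
      have hz : z ∉ Z := fun hz => hw ((hQ0 z).2 hz)
      show φ (G (φ.symm (Φ z : ℂ))) = _
      rw [← hφc, φ.symm_apply_apply, hqm.npole z hz, hφc]
      congr 1
      rw [hP'', Polynomial.eval_mul, Polynomial.eval_C, hP2 z hz, hQe]
      have h7 : ∏ p ∈ Z, (Φ z - Φ p) ≠ 0 := by
        rw [hQe] at hw
        exact right_ne_zero_of_mul hw
      field_simp [hg.lc0]
  have hconj : ∀ z, sp x' (φ z) = φ (G z) := by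
    intro z
    rw [← hsp]
    simp only [Homeomorph.symm_apply_apply]
  refine ⟨Φ, x', P', hx', fun hyp => hyp_conj φ hconj fun c hc => ?_, h1, ?_, ⟨?_, ?_, ?_⟩, ?_, ?_,
    hx0, hx1, ?_⟩
  · exact dyn hqm.cont (Pool.Agent.H790R3.RB.SP.sp_cont hynd) D.Uo
      (Dm_closed D.χs.continuous a0) D.UD D.tr D.at' hGU hGH hy2 hGDm hyp hc
  · exact h2
  · intro z hz
    rw [hconj, hGU z hz]
  · intro z hz
    rw [hconj, hGH z hz]
  · intro z hz
    rw [hconj]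
    exact ⟨_, hGDm z hz, rfl⟩
  · exact h6 _ hqm.Vopen fun K z hz => pbm_V hqm K z hz
  · rw [← hg.card]
    exact hP1
  · intro z hz hZ
    rw [hP2 z hZ, huU z hz]

end

end Pool.Agent.Helper23U
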